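import Mathlib

/-!
Definitions for the coupled cubic Schroedinger system in the case `N = 1`, `Ω = ℝ`.
-/

open MeasureTheory Filter Topology
open scoped ContDiff

namespace Pool.Agent.Lib.MP_a38b16_an

/-- An element of the Sobolev space `H^1_0(ℝ)`: a function `val` in `L^2` with weak derivative
`der` in `L^2`, which is the limit in the `H^1` norm of smooth compactly supported functions. -/
structure H10 where
  val : ℝ → ℝ
  der : ℝ → ℝ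
  memLp_val : MemLp val 2 volume
  memLp_der : MemLp der 2 volume
  weak_der : ∀ φ : ℝ → ℝ, ContDiff ℝ ∞ φ → HasCompactSupport φ →
    ∫ x, val x * deriv φ x = -∫ x, der x * φ x
  approx : ∃ φ : ℕ → ℝ → ℝ, (∀ n, ContDiff ℝ ∞ (φ n) ∧ HasCompactSupport (φ n)) ∧
    Tendsto (fun n => eLpNorm (φ n - val) 2 volume) atTop (𝓝 0) ∧
    Tendsto (fun n => eLpNorm (deriv (φ n) - der) 2 volume) atTop (𝓝 0)

/-- The squared norm `∫ (|w'|^2 + l w^2)`. -/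
noncomputable def nsq (l : ℝ) (w : H10) : ℝ := ∫ x, (w.der x ^ 2 + l * w.val x ^ 2)

/-- The energy functional `E_β`. -/
noncomputable def energy (l₁ l₂ μ₁ μ₂ β : ℝ) (u v : H10) : ℝ :=
  (nsq l₁ u + nsq l₂ v) / 2 -
    (1 / 4) * ∫ x, (μ₁ * u.val x ^ 4 + 2 * β * (u.val x ^ 2 * v.val x ^ 2) + μ₂ * v.val x ^ 4)

/-- Membership of `(u, v)` in the Nehari-type set `N_β`. -/
def InNehari (l₁ l₂ μ₁ μ₂ β : ℝ) (u v : H10) : Prop :=
  ¬ (u.val =ᵐ[volume] 0) ∧ ¬ (v.val =ᵐ[volume] 0) ∧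
    nsq l₁ u = ∫ x, (μ₁ * u.val x ^ 4 + β * (u.val x ^ 2 * v.val x ^ 2)) ∧
    nsq l₂ v = ∫ x, (μ₂ * v.val x ^ 4 + β * (u.val x ^ 2 * v.val x ^ 2))

/-- `(u, v)` is a weak solution of the system, i.e. a critical point of `E_β` on `H`. -/
def IsWeakSolution (l₁ l₂ μ₁ μ₂ β : ℝ) (u v : H10) : Prop :=
  (∀ φ : H10, ∫ x, (u.der x * φ.der x + l₁ * (u.val x * φ.val x)) =
    ∫ x, (μ₁ * u.val x ^ 3 + β * (u.val x * v.val x ^ 2)) * φ.val x) ∧
  (∀ ψ : H10, ∫ x, (v.der x * ψ.der x + l₂ * (v.val x * ψ.val x)) =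
    ∫ x, (μ₂ * v.val x ^ 3 + β * (v.val x * u.val x ^ 2)) * ψ.val x)

end Pool.Agent.Lib.MP_a38b16_an
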