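import Pool.Agent.Lib.MP_a38b16_an.Defs

-- part Pool.Agent.Lib.MP_a38b16_an.Sobolev
section

/-!
The sharp one-dimensional Sobolev inequality `(16/3) ∫ u^4 ≤ (∫ (u'^2 + u^2))^2` on `H^1_0(ℝ)`.
-/

open MeasureTheory Filter Topology Set
open scoped ContDiff

namespace Pool.Agent.Lib.MP_a38b16_an

lemma hcs_pow {f : ℝ → ℝ} (hs : HasCompactSupport f) (n : ℕ) :
    HasCompactSupport fun x => f x ^ (n + 1) :=
  hs.comp_left (g := fun y => y ^ (n + 1)) (by simp)

lemma half_bound {f : ℝ → ℝ} (hf : ContDiff ℝ 1 f) (hb : ∀ x, f x ^ 2 ≤ 1) (ε : ℝ)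
    (hε : ε ^ 2 = 1) {a b : ℝ} (hab : a ≤ b) :
    ε * (2 / 3) * ((1 - f b ^ 2) ^ (3 / 2 : ℝ) - (1 - f a ^ 2) ^ (3 / 2 : ℝ)) ≤
      ∫ x in a..b, (deriv f x ^ 2 + f x ^ 2 * (1 - f x ^ 2)) := by
  have hd : Differentiable ℝ f := hf.differentiable (by simp)
  have hc : Continuous f := hf.continuous
  have hc' : Continuous (deriv f) := hf.continuous_deriv le_rfl
  have key : ∀ x, HasDerivAt (fun x => ε * (2 / 3) * (1 - f x ^ 2) ^ (3 / 2 : ℝ))
      (ε * (2 / 3) * (-(2 * f x * deriv f x) * (3 / 2) * (1 - f x ^ 2) ^ ((3 / 2 : ℝ) - 1))) x := by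
    intro x
    have h1 : HasDerivAt (fun x => 1 - f x ^ 2) (-(2 * f x * deriv f x)) x := by
      have := ((hd x).hasDerivAt.pow 2).const_sub 1
      simpa using this
    exact (h1.rpow_const (Or.inr (by norm_num))).const_mul _
  have := intervalIntegral.sub_le_integral_of_hasDeriv_right_of_le
    (g := fun x => ε * (2 / 3) * (1 - f x ^ 2) ^ (3 / 2 : ℝ))
    (φ := fun x => deriv f x ^ 2 + f x ^ 2 * (1 - f x ^ 2)) hab
    (fun x _ => (key x).continuousAt.continuousWithinAt)
    (fun x _ => (key x).hasDerivWithinAt)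
    (Continuous.integrableOn_Icc (by fun_prop))
    (fun x _ => by
      have h0 : 0 ≤ 1 - f x ^ 2 := sub_nonneg.2 (hb x)
      have hs : ((1 - f x ^ 2) ^ ((3 / 2 : ℝ) - 1)) ^ 2 = 1 - f x ^ 2 := by
        rw [← Real.rpow_natCast, ← Real.rpow_mul h0]
        norm_num
      set s := (1 - f x ^ 2) ^ ((3 / 2 : ℝ) - 1)
      have : ε * (2 / 3) * (-(2 * f x * deriv f x) * (3 / 2) * s) =
          -2 * (ε * deriv f x) * (f x * s) := by ring
      rw [this, ← hs]
      nlinarith [sq_nonneg (ε * deriv f x + f x * s)])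
  linarith

lemma normalized_bound {f : ℝ → ℝ} (hf : ContDiff ℝ 1 f) (hs : HasCompactSupport f)
    (hb : ∀ x, f x ^ 2 ≤ 1) {x₀ : ℝ} (h₀ : f x₀ ^ 2 = 1) :
    4 / 3 ≤ ∫ x, (deriv f x ^ 2 + f x ^ 2 * (1 - f x ^ 2)) := by
  have hc : Continuous f := hf.continuous
  have hc' : Continuous (deriv f) := hf.continuous_deriv le_rfl
  obtain ⟨R, hR⟩ := hs.isCompact.isBounded.subset_ball 0
  have hzero : ∀ x, R ≤ |x| → f x = 0 := by
    intro x hx
    by_contra h
    have := hR (subset_tsupport _ h)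
    simp at this
    linarith
  have hx₀ : |x₀| < R := by
    by_contra h
    rw [hzero x₀ (not_lt.1 h)] at h₀
    norm_num at h₀
  have hR0 : 0 ≤ R := (abs_nonneg _).trans hx₀.le
  rw [abs_lt] at hx₀
  have h1 := half_bound hf hb (-1) (by norm_num) (a := -R) (b := x₀) hx₀.1.le
  have h2 := half_bound hf hb 1 (by norm_num) (a := x₀) (b := R) hx₀.2.le
  rw [hzero (-R) (by rw [abs_neg, abs_of_nonneg hR0]), h₀] at h1
  rw [hzero R (by rw [abs_of_nonneg hR0]), h₀] at h2
  norm_num at h1 h2
  have hcont : Continuous fun x => deriv f x ^ 2 + f x ^ 2 * (1 - f x ^ 2) := by fun_prop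
  have h3 := intervalIntegral.integral_add_adjacent_intervals
    (hcont.intervalIntegrable (μ := volume) (-R) x₀) (hcont.intervalIntegrable x₀ R)
  have hint : Integrable fun x => deriv f x ^ 2 + f x ^ 2 * (1 - f x ^ 2) := by
    refine hcont.integrable_of_hasCompactSupport (HasCompactSupport.add ?_ ?_)
    · exact hcs_pow hs.deriv 1
    · exact HasCompactSupport.mul_right (hcs_pow hs 1)
  have h4 : ∫ x in (-R)..R, (deriv f x ^ 2 + f x ^ 2 * (1 - f x ^ 2)) ≤
      ∫ x, (deriv f x ^ 2 + f x ^ 2 * (1 - f x ^ 2)) := by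
    rw [intervalIntegral.integral_of_le (by linarith)]
    refine setIntegral_le_integral hint (Eventually.of_forall fun x => ?_)
    have := sub_nonneg.2 (hb x)
    positivity
  linarith

lemma smooth_bound {φ : ℝ → ℝ} (hφ : ContDiff ℝ 1 φ) (hs : HasCompactSupport φ) :
    16 / 3 * ∫ x, φ x ^ 4 ≤ (∫ x, (deriv φ x ^ 2 + φ x ^ 2)) ^ 2 := by
  have hc : Continuous φ := hφ.continuous
  have hc' : Continuous (deriv φ) := hφ.continuous_deriv le_rfl
  have hd : Differentiable ℝ φ := hφ.differentiable (by simp)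
  have hs2 : HasCompactSupport fun x => φ x ^ 2 := hcs_pow hs 1
  obtain ⟨x₀, hx₀⟩ := (hc.pow 2).exists_forall_ge_of_hasCompactSupport hs2
  by_cases hM : φ x₀ = 0
  · have : ∀ x, φ x = 0 := fun x => by
      have := hx₀ x
      simp only [Pi.pow_apply, hM] at this
      nlinarith
    simp only [this]
    simp only [ne_eq, OfNat.ofNat_ne_zero, not_false_eq_true, zero_pow, integral_zero, mul_zero]
    positivity
  set M := φ x₀ with hMdef
  have hM2 : 0 < M ^ 2 := by positivity
  have h := normalized_bound (f := fun x => M⁻¹ * φ x) (contDiff_const.mul hφ) hs.mul_left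
    (fun x => by
      have := hx₀ x
      simp only [Pi.pow_apply] at this
      rw [mul_pow, inv_pow, inv_mul_le_iff₀ hM2]
      simpa using this)
    (x₀ := x₀) (by simp only [← hMdef]; field_simp)
  have hi1 : Integrable fun x => deriv φ x ^ 2 + φ x ^ 2 := by
    refine Continuous.integrable_of_hasCompactSupport (by fun_prop) (HasCompactSupport.add ?_ hs2)
    exact hcs_pow hs.deriv 1
  have hi2 : Integrable fun x => φ x ^ 4 := by
    exact Continuous.integrable_of_hasCompactSupport (by fun_prop) (hcs_pow hs 3)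
  have e : (fun x => deriv (fun x => M⁻¹ * φ x) x ^ 2 + (M⁻¹ * φ x) ^ 2 * (1 - (M⁻¹ * φ x) ^ 2)) =
      fun x => (M ^ 2)⁻¹ * (deriv φ x ^ 2 + φ x ^ 2) - ((M ^ 2)⁻¹) ^ 2 * φ x ^ 4 := by
    funext x
    rw [deriv_const_mul _ (hd x)]
    ring
  rw [e, integral_sub (hi1.const_mul _) (hi2.const_mul _), integral_const_mul,
    integral_const_mul] at h
  have hI : 0 ≤ ∫ x, φ x ^ 4 := integral_nonneg fun x => by positivity
  set A := ∫ x, (deriv φ x ^ 2 + φ x ^ 2)
  set I := ∫ x, φ x ^ 4
  set y := (M ^ 2)⁻¹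
  nlinarith [sq_nonneg (A - 2 * I * y), mul_le_mul_of_nonneg_left h hI]

lemma eLpNorm_two_eq {f : ℝ → ℝ} (hf : MemLp f 2 volume) :
    eLpNorm f 2 volume = ENNReal.ofReal (√(∫ x, f x ^ 2)) := by
  rw [hf.eLpNorm_eq_integral_rpow_norm (by norm_num) (by norm_num)]
  congr 1
  rw [Real.sqrt_eq_rpow]
  simp

lemma tendsto_integral_sq {f : ℕ → ℝ → ℝ} {g : ℝ → ℝ} (hf : ∀ n, MemLp (f n) 2 volume)
    (hg : MemLp g 2 volume) (h : Tendsto (fun n => eLpNorm (f n - g) 2 volume) atTop (𝓝 0)) :
    Tendsto (fun n => ∫ x, f n x ^ 2) atTop (𝓝 (∫ x, g x ^ 2)) := by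
  have h1 := (Lp.tendsto_Lp_iff_tendsto_eLpNorm'' f hf g hg).2 h
  have h2 := (h1.norm).pow 2
  have e : ∀ {k : ℝ → ℝ} (hk : MemLp k 2 volume), ‖hk.toLp k‖ ^ 2 = ∫ x, k x ^ 2 := by
    intro k hk
    rw [Lp.norm_toLp, eLpNorm_two_eq hk, ENNReal.toReal_ofReal (Real.sqrt_nonneg _),
      Real.sq_sqrt (integral_nonneg fun x => by positivity)]
  simpa only [e] using h2

lemma H10.int_val_sq (u : H10) : Integrable fun x => u.val x ^ 2 := u.memLp_val.integrable_sq

lemma H10.int_der_sq (u : H10) : Integrable fun x => u.der x ^ 2 := u.memLp_der.integrable_sq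

lemma nsq_eq (l : ℝ) (u : H10) : nsq l u = (∫ x, u.der x ^ 2) + l * ∫ x, u.val x ^ 2 := by
  unfold nsq
  rw [integral_add u.int_der_sq (u.int_val_sq.const_mul l), integral_const_mul]

/-- Sharp Sobolev inequality on `H^1_0(ℝ)`, with integrability of the fourth power. -/
theorem sobolev (u : H10) :
    (Integrable fun x => u.val x ^ 4) ∧ 16 / 3 * ∫ x, u.val x ^ 4 ≤ nsq 1 u ^ 2 := by
  obtain ⟨φ, hφ, h1, h2⟩ := u.approx
  have hφ1 : ∀ n, ContDiff ℝ 1 (φ n) := fun n => (hφ n).1.of_le (by simp)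
  have hc : ∀ n, Continuous (φ n) := fun n => (hφ n).1.continuous
  have hc' : ∀ n, Continuous (deriv (φ n)) := fun n => (hφ1 n).continuous_deriv le_rfl
  have hm : ∀ n, MemLp (φ n) 2 volume := fun n => (hc n).memLp_of_hasCompactSupport (hφ n).2
  have hm' : ∀ n, MemLp (deriv (φ n)) 2 volume := fun n =>
    (hc' n).memLp_of_hasCompactSupport (hφ n).2.deriv
  have hA : Tendsto (fun n => ∫ x, (deriv (φ n) x ^ 2 + φ n x ^ 2)) atTop (𝓝 (nsq 1 u)) := by
    rw [nsq_eq, one_mul]
    refine ((tendsto_integral_sq hm' u.memLp_der h2).add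
      (tendsto_integral_sq hm u.memLp_val h1)).congr fun n => ?_
    rw [integral_add (hm' n).integrable_sq (hm n).integrable_sq]
  obtain ⟨ns, hns, hae⟩ := (tendstoInMeasure_of_tendsto_eLpNorm (by norm_num)
    (fun n => (hc n).aestronglyMeasurable) u.memLp_val.1 h1).exists_seq_tendsto_ae
  have hi4 : ∀ n, Integrable fun x => φ n x ^ 4 := fun n => by
    exact Continuous.integrable_of_hasCompactSupport ((hc n).pow 4) (hcs_pow (hφ n).2 3)
  have hF : ∫⁻ x, ENNReal.ofReal (u.val x ^ 4) ≤ ENNReal.ofReal (3 / 16 * nsq 1 u ^ 2) := by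
    calc ∫⁻ x, ENNReal.ofReal (u.val x ^ 4)
        = ∫⁻ x, liminf (fun i => ENNReal.ofReal (φ (ns i) x ^ 4)) atTop := by
          refine lintegral_congr_ae (hae.mono fun x hx => ?_)
          exact ((ENNReal.tendsto_ofReal (hx.pow 4)).liminf_eq).symm
      _ ≤ liminf (fun i => ∫⁻ x, ENNReal.ofReal (φ (ns i) x ^ 4)) atTop :=
          lintegral_liminf_le' fun i => (((hc _).pow 4).measurable.ennreal_ofReal).aemeasurable
      _ ≤ liminf (fun i => ENNReal.ofReal
            (3 / 16 * (∫ x, (deriv (φ (ns i)) x ^ 2 + φ (ns i) x ^ 2)) ^ 2)) atTop := by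
          refine liminf_le_liminf (Eventually.of_forall fun i => ?_)
          rw [← ofReal_integral_eq_lintegral_ofReal (hi4 _)
            (Eventually.of_forall fun x => by positivity)]
          refine ENNReal.ofReal_le_ofReal ?_
          have := smooth_bound (hφ1 (ns i)) (hφ (ns i)).2
          linarith
      _ = ENNReal.ofReal (3 / 16 * nsq 1 u ^ 2) :=
          (ENNReal.tendsto_ofReal
            (((hA.comp hns.tendsto_atTop).pow 2).const_mul (3 / 16))).liminf_eq
  have hmeas : AEStronglyMeasurable (fun x => u.val x ^ 4) volume := u.memLp_val.1.pow 4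
  have hnn : 0 ≤ᵐ[volume] fun x => u.val x ^ 4 := Eventually.of_forall fun x => by positivity
  have hint : Integrable fun x => u.val x ^ 4 :=
    ⟨hmeas, (hasFiniteIntegral_iff_ofReal hnn).2 (hF.trans_lt ENNReal.ofReal_lt_top)⟩
  refine ⟨hint, ?_⟩
  rw [← ofReal_integral_eq_lintegral_ofReal hint hnn,
    ENNReal.ofReal_le_ofReal_iff (by positivity)] at hF
  linarith

end Pool.Agent.Lib.MP_a38b16_an
end

-- part Pool.Agent.Lib.MP_a38b16_an.Main
section

/-!
The counterexample: `l₁ = 1`, `l₂ = 5`, `μ₁ = 2`, `μ₂ = 32`, `β = 8`,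
`u = (3/5) sech`, `v = (2/5) sech`.
-/

open MeasureTheory Filter Topology Set
open scoped ContDiff

namespace Pool.Agent.Lib.MP_a38b16_an

lemma tendsto_eLpNorm_of_dom {F : ℕ → ℝ → ℝ} {b : ℝ → ℝ} (hF : ∀ n, MemLp (F n) 2 volume)
    (hb : Integrable b) (hle : ∀ n x, F n x ^ 2 ≤ b x)
    (hlim : ∀ x, Tendsto (fun n => F n x) atTop (𝓝 0)) :
    Tendsto (fun n => eLpNorm (F n) 2 volume) atTop (𝓝 0) := by
  have h1 : Tendsto (fun n => ∫ x, F n x ^ 2) atTop (𝓝 (∫ _x : ℝ, (0 : ℝ))) := by
    refine tendsto_integral_of_dominated_convergence b (fun n => (hF n).1.pow 2) hb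
      (fun n => Eventually.of_forall fun x => ?_) (Eventually.of_forall fun x => ?_)
    · rw [Real.norm_eq_abs, abs_of_nonneg (by positivity)]
      exact hle n x
    · simpa using (hlim x).pow 2
  rw [integral_zero] at h1
  have h2 := ENNReal.tendsto_ofReal h1.sqrt
  simp only [Real.sqrt_zero, ENNReal.ofReal_zero] at h2
  exact h2.congr fun n => (eLpNorm_two_eq (hF n)).symm

lemma aux_ineq {a t K p q : ℝ} (h3 : 0 ≤ t) (h4 : t ≤ 1) (h5 : a ^ 2 ≤ K ^ 2) :
    (a * p + t * q - q) ^ 2 ≤ 2 * K ^ 2 * p ^ 2 + 2 * q ^ 2 := by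
  have h9 : (1 - t) ^ 2 ≤ 1 := by nlinarith
  nlinarith [sq_nonneg (a * p + (1 - t) * q), mul_le_mul_of_nonneg_right h5 (sq_nonneg p),
    mul_le_mul_of_nonneg_right h9 (sq_nonneg q)]

lemma exists_bump : ∃ chi : ℝ → ℝ, ContDiff ℝ ∞ chi ∧ HasCompactSupport chi ∧
    (∀ x, 0 ≤ chi x) ∧ (∀ x, chi x ≤ 1) ∧ chi 0 = 1 := by
  let b : ContDiffBump (0 : ℝ) := ⟨1, 2, by norm_num, by norm_num⟩
  exact ⟨b, b.contDiff, b.hasCompactSupport, fun _ => b.nonneg, fun _ => b.le_one,
    b.one_of_mem_closedBall (by simp [b])⟩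

lemma approx_smooth {f : ℝ → ℝ} (hf : ContDiff ℝ ∞ f) (h1 : MemLp f 2 volume)
    (h2 : MemLp (deriv f) 2 volume) :
    ∃ φ : ℕ → ℝ → ℝ, (∀ n, ContDiff ℝ ∞ (φ n) ∧ HasCompactSupport (φ n)) ∧
      Tendsto (fun n => eLpNorm (φ n - f) 2 volume) atTop (𝓝 0) ∧
      Tendsto (fun n => eLpNorm (deriv (φ n) - deriv f) 2 volume) atTop (𝓝 0) := by
  obtain ⟨chi, hχ, hχs, hχ0, hχ1, h3⟩ := exists_bump
  have hχd : Differentiable ℝ chi := hχ.differentiable (by simp)
  have hfd : Differentiable ℝ f := hf.differentiable (by simp)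
  have hχ' : Continuous (deriv chi) := hχ.continuous_deriv (by simp)
  obtain ⟨K, hK⟩ := hχ'.bounded_above_of_compact_support hχs.deriv
  let c : ℕ → ℝ := fun n => 1 / ((n : ℝ) + 1)
  have hc0 : ∀ n, 0 < c n := fun n => by positivity
  have hc1 : ∀ n, c n ≤ 1 := fun n => by
    simp only [c]
    rw [div_le_one (by positivity)]
    linarith [Nat.cast_nonneg (α := ℝ) n]
  have hc : Tendsto c atTop (𝓝 0) := tendsto_one_div_add_atTop_nhds_zero_nat
  let φ : ℕ → ℝ → ℝ := fun n x => chi (c n * x) * f x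
  have hφ : ∀ n, ContDiff ℝ ∞ (φ n) ∧ HasCompactSupport (φ n) := fun n =>
    ⟨(hχ.comp (contDiff_const.mul contDiff_id)).mul hf,
      HasCompactSupport.mul_right (hχs.comp_smul (hc0 n).ne')⟩
  have hder : ∀ n x, deriv (φ n) x =
      deriv chi (c n * x) * c n * f x + chi (c n * x) * deriv f x := fun n x => by
    have h3 : HasDerivAt (fun x => chi (c n * x)) (deriv chi (c n * x) * c n) x := by
      have := (hχd (c n * x)).hasDerivAt.comp x ((hasDerivAt_id x).const_mul (c n))
      simpa [Function.comp_def] using this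
    exact (h3.mul (hfd x).hasDerivAt).deriv
  have hone : ∀ x, Tendsto (fun n => chi (c n * x)) atTop (𝓝 1) := fun x => by
    have := (hχ.continuous.tendsto 0).comp (by simpa using hc.mul_const x)
    rwa [h3] at this
  have hm : ∀ n, MemLp (φ n) 2 volume := fun n =>
    (hφ n).1.continuous.memLp_of_hasCompactSupport (hφ n).2
  have hm' : ∀ n, MemLp (deriv (φ n)) 2 volume := fun n =>
    ((hφ n).1.continuous_deriv (by simp)).memLp_of_hasCompactSupport (hφ n).2.deriv
  refine ⟨φ, hφ, ?_, ?_⟩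
  · refine tendsto_eLpNorm_of_dom (fun n => (hm n).sub h1) h1.integrable_sq (fun n x => ?_)
      fun x => ?_
    · have h3 := hχ0 (c n * x)
      have h4 := hχ1 (c n * x)
      simp only [Pi.sub_apply, φ]
      have : (chi (c n * x) * f x - f x) ^ 2 = (1 - chi (c n * x)) ^ 2 * f x ^ 2 := by ring
      rw [this]
      exact mul_le_of_le_one_left (by positivity) (by nlinarith)
    · simpa [φ] using ((hone x).mul_const (f x)).sub_const (f x)
  · refine tendsto_eLpNorm_of_dom (fun n => (hm' n).sub h2)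
      ((h1.integrable_sq.const_mul (2 * K ^ 2)).add (h2.integrable_sq.const_mul 2))
      (fun n x => ?_) fun x => ?_
    · have h3 := hχ0 (c n * x)
      have h4 := hχ1 (c n * x)
      have h5 : (deriv chi (c n * x) * c n) ^ 2 ≤ K ^ 2 := by
        have h6 := hK (c n * x)
        rw [Real.norm_eq_abs] at h6
        have h7 : deriv chi (c n * x) ^ 2 ≤ K ^ 2 := by
          rw [← sq_abs]
          exact pow_le_pow_left₀ (abs_nonneg _) h6 2
        have h8 : c n ^ 2 ≤ 1 := by nlinarith [hc0 n, hc1 n]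
        rw [mul_pow]
        nlinarith [sq_nonneg (deriv chi (c n * x))]
      simp only [Pi.sub_apply, Pi.add_apply, hder]
      exact aux_ineq h3 h4 h5
    · have h3 : Tendsto (fun n => deriv chi (c n * x)) atTop (𝓝 (deriv chi 0)) :=
        (hχ'.tendsto 0).comp (by simpa using hc.mul_const x)
      have := (((h3.mul hc).mul_const (f x)).add ((hone x).mul_const (deriv f x))).sub_const
        (deriv f x)
      simpa [hder] using this

/-- A smooth function which is square integrable together with its derivative is in `H^1_0`. -/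
noncomputable def ofSmooth (f : ℝ → ℝ) (hf : ContDiff ℝ ∞ f) (h1 : MemLp f 2 volume)
    (h2 : MemLp (deriv f) 2 volume) : H10 where
  val := f
  der := deriv f
  memLp_val := h1
  memLp_der := h2
  weak_der := fun φ hφ hs => by
    have hφ' : Continuous (deriv φ) := hφ.continuous_deriv (by simp)
    have hf' : Continuous (deriv f) := hf.continuous_deriv (by simp)
    exact integral_mul_deriv_eq_deriv_mul_of_integrable
      (fun x _ => (hf.differentiable (by simp) x).hasDerivAt)
      (fun x _ => (hφ.differentiable (by simp) x).hasDerivAt)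
      ((hf.continuous.mul hφ').integrable_of_hasCompactSupport hs.deriv.mul_left)
      ((hf'.mul hφ.continuous).integrable_of_hasCompactSupport hs.mul_left)
      ((hf.continuous.mul hφ.continuous).integrable_of_hasCompactSupport hs.mul_left)
  approx := approx_smooth hf h1 h2

/-- `sech`. -/
noncomputable def z (x : ℝ) : ℝ := (Real.cosh x)⁻¹

/-- `tanh`. -/
noncomputable def th (x : ℝ) : ℝ := Real.sinh x * (Real.cosh x)⁻¹

lemma z_pos (x : ℝ) : 0 < z x := inv_pos.2 (Real.cosh_pos x)

lemma z_sq_add (x : ℝ) : z x ^ 2 + th x ^ 2 = 1 := by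
  have := Real.cosh_sq x
  have h := (Real.cosh_pos x).ne'
  unfold z th
  field_simp
  linarith

lemma contDiff_z : ContDiff ℝ ∞ z := Real.contDiff_cosh.inv fun x => (Real.cosh_pos x).ne'

lemma contDiff_th : ContDiff ℝ ∞ th := Real.contDiff_sinh.mul contDiff_z

lemma hasDerivAt_z (x : ℝ) : HasDerivAt z (-(z x * th x)) x := by
  have h := (Real.cosh_pos x).ne'
  refine ((Real.hasDerivAt_cosh x).inv h).congr_deriv ?_
  unfold z th
  field_simp

lemma hasDerivAt_th (x : ℝ) : HasDerivAt th (z x ^ 2) x := by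
  have h := (Real.cosh_pos x).ne'
  have h1 := z_sq_add x
  refine ((Real.hasDerivAt_sinh x).mul (hasDerivAt_z x)).congr_deriv ?_
  have h2 : Real.cosh x * z x = 1 := mul_inv_cancel₀ h
  have h3 : Real.sinh x * z x = th x := rfl
  rw [h2]
  have : Real.sinh x * -(z x * th x) = -(th x ^ 2) := by rw [← h3]; ring
  rw [this]
  linarith

lemma z_sq_le (x : ℝ) : z x ^ 2 ≤ (1 + x ^ 2)⁻¹ := by
  unfold z
  rw [inv_pow]
  refine inv_anti₀ (by positivity) ?_
  rw [Real.cosh_sq]
  have : x ^ 2 ≤ Real.sinh x ^ 2 := by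
    rw [sq_le_sq, Real.abs_sinh]
    exact (Real.self_le_sinh_iff.2 (abs_nonneg x)).trans (le_refl _)
  linarith

lemma int_z2 : Integrable fun x => z x ^ 2 :=
  integrable_inv_one_add_sq.mono' (contDiff_z.continuous.pow 2).aestronglyMeasurable
    (Eventually.of_forall fun x => by
      rw [Real.norm_eq_abs, abs_of_nonneg (by positivity)]
      exact z_sq_le x)

lemma int_z2t2 : Integrable fun x => z x ^ 2 * th x ^ 2 :=
  int_z2.mono'
    ((contDiff_z.continuous.pow 2).mul (contDiff_th.continuous.pow 2)).aestronglyMeasurable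
    (Eventually.of_forall fun x => by
      rw [Real.norm_eq_abs, abs_of_nonneg (by positivity)]
      exact mul_le_of_le_one_right (by positivity) (by nlinarith [z_sq_add x, sq_nonneg (z x)]))

lemma th_atTop : Tendsto th atTop (𝓝 1) := by
  have h1 : Tendsto (fun x => Real.exp (-x) * z x) atTop (𝓝 0) := by
    refine squeeze_zero (fun x => (mul_pos (Real.exp_pos _) (z_pos x)).le) (fun x => ?_)
      Real.tendsto_exp_neg_atTop_nhds_zero
    exact mul_le_of_le_one_right (Real.exp_pos _).le (inv_le_one_of_one_le₀ (Real.one_le_cosh x))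
  have h2 := h1.const_sub 1
  rw [sub_zero] at h2
  refine h2.congr fun x => ?_
  have h := (Real.cosh_pos x).ne'
  rw [← Real.cosh_sub_sinh]
  unfold z th
  field_simp
  ring

lemma th_atBot : Tendsto th atBot (𝓝 (-1)) := by
  refine ((th_atTop.comp tendsto_neg_atBot_atTop).neg).congr fun x => ?_
  simp [th]

lemma integral_z2 : ∫ x, z x ^ 2 = 2 := by
  rw [integral_of_hasDerivAt_of_tendsto hasDerivAt_th int_z2 th_atBot th_atTop]
  norm_num

lemma integral_z2t2 : ∫ x, z x ^ 2 * th x ^ 2 = 2 / 3 := by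
  have h : ∀ x, HasDerivAt (fun x => th x ^ 3 / 3) (z x ^ 2 * th x ^ 2) x := fun x => by
    refine (((hasDerivAt_th x).pow 3).div_const 3).congr_deriv ?_
    simp
    ring
  rw [integral_of_hasDerivAt_of_tendsto h int_z2t2 ((th_atBot.pow 3).div_const 3)
    ((th_atTop.pow 3).div_const 3)]
  norm_num

lemma z4_eq (x : ℝ) : z x ^ 4 = z x ^ 2 - z x ^ 2 * th x ^ 2 := by
  have := z_sq_add x
  have h : th x ^ 2 = 1 - z x ^ 2 := by linarith
  rw [h]
  ring

lemma integral_z4 : ∫ x, z x ^ 4 = 4 / 3 := by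
  simp only [z4_eq]
  rw [integral_sub int_z2 int_z2t2, integral_z2, integral_z2t2]
  norm_num

lemma hasDerivAt_cz (c x : ℝ) : HasDerivAt (fun x => c * z x) (-(c * (z x * th x))) x := by
  simpa using (hasDerivAt_z x).const_mul c

lemma deriv_cz (c : ℝ) : deriv (fun x => c * z x) = fun x => -(c * (z x * th x)) :=
  funext fun x => (hasDerivAt_cz c x).deriv

/-- The element `c * sech` of `H^1_0(ℝ)`. -/
noncomputable def W (c : ℝ) : H10 :=
  ofSmooth (fun x => c * z x) (contDiff_const.mul contDiff_z)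
    (((memLp_two_iff_integrable_sq contDiff_z.continuous.aestronglyMeasurable).2
      int_z2).const_mul c)
    (by
      rw [deriv_cz]
      refine MemLp.neg (f := fun x => c * (z x * th x)) (MemLp.const_mul ?_ c)
      refine (memLp_two_iff_integrable_sq
        (contDiff_z.continuous.mul contDiff_th.continuous).aestronglyMeasurable).2 ?_
      simpa only [Pi.mul_apply, mul_pow] using int_z2t2)

lemma W_val (c x : ℝ) : (W c).val x = c * z x := rfl

lemma W_der (c x : ℝ) : (W c).der x = -(c * (z x * th x)) := (hasDerivAt_cz c x).deriv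

lemma nsq_W (l c : ℝ) : nsq l (W c) = c ^ 2 * (2 / 3 + 2 * l) := by
  rw [nsq_eq]
  simp only [W_val, W_der, neg_sq, mul_pow]
  rw [integral_const_mul, integral_const_mul, integral_z2, integral_z2t2]
  ring

lemma W_ne_zero {c : ℝ} (hc : c ≠ 0) : ¬ ((W c).val =ᵐ[volume] 0) := by
  intro h
  have h1 : (W c).val = 0 :=
    (Continuous.ae_eq_iff_eq volume (continuous_const.mul contDiff_z.continuous)
      continuous_const).1 h
  have := congrFun h1 0
  simp [W_val, z, hc] at this

lemma integral_quartic (k : ℝ) : ∫ x, k * z x ^ 4 = k * (4 / 3) := by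
  rw [integral_const_mul, integral_z4]

lemma W_mem : InNehari 1 5 2 32 8 (W (3 / 5)) (W (2 / 5)) := by
  refine ⟨W_ne_zero (by norm_num), W_ne_zero (by norm_num), ?_, ?_⟩
  · rw [nsq_W]
    have : ∀ x, 2 * (W (3 / 5)).val x ^ 4 + 8 * ((W (3 / 5)).val x ^ 2 * (W (2 / 5)).val x ^ 2) =
        (18 / 25) * z x ^ 4 := fun x => by simp only [W_val]; ring
    simp only [this, integral_quartic]
    norm_num
  · rw [nsq_W]
    have : ∀ x, 32 * (W (2 / 5)).val x ^ 4 + 8 * ((W (3 / 5)).val x ^ 2 * (W (2 / 5)).val x ^ 2) =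
        (32 / 25) * z x ^ 4 := fun x => by simp only [W_val]; ring
    simp only [this, integral_quartic]
    norm_num

lemma W_energy : energy 1 5 2 32 8 (W (3 / 5)) (W (2 / 5)) = 2 / 3 := by
  unfold energy
  have : ∀ x, 2 * (W (3 / 5)).val x ^ 4 + 2 * 8 * ((W (3 / 5)).val x ^ 2 * (W (2 / 5)).val x ^ 2) +
      32 * (W (2 / 5)).val x ^ 4 = 2 * z x ^ 4 := fun x => by simp only [W_val]; ring
  simp only [this, integral_quartic, nsq_W]
  norm_num

lemma energy_lower {u v : H10} (h : InNehari 1 5 2 32 8 u v) : 2 / 3 ≤ energy 1 5 2 32 8 u v := by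
  obtain ⟨hu, -, h1, h2⟩ := h
  obtain ⟨iu, su⟩ := sobolev u
  obtain ⟨iv, -⟩ := sobolev v
  have iuv : Integrable fun x => u.val x ^ 2 * v.val x ^ 2 := by
    refine (iu.add iv).mono' ((u.memLp_val.1.pow 2).mul (v.memLp_val.1.pow 2))
      (Eventually.of_forall fun x => ?_)
    rw [Real.norm_eq_abs, abs_of_nonneg (by positivity)]
    simp only [Pi.add_apply]
    nlinarith [sq_nonneg (u.val x ^ 2 - v.val x ^ 2), sq_nonneg (u.val x * v.val x)]
  unfold energy
  rw [integral_add (iu.const_mul _) (iuv.const_mul _), integral_const_mul, integral_const_mul] at h1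
  rw [integral_add (iv.const_mul _) (iuv.const_mul _), integral_const_mul, integral_const_mul] at h2
  have i3 : Integrable fun x => 2 * u.val x ^ 4 + 2 * 8 * (u.val x ^ 2 * v.val x ^ 2) :=
    (iu.const_mul _).add (iuv.const_mul _)
  rw [integral_add i3 (iv.const_mul _),
    integral_add (iu.const_mul _) (iuv.const_mul _), integral_const_mul, integral_const_mul,
    integral_const_mul]
  have ha : 0 < ∫ x, u.val x ^ 4 := by
    have hnn : 0 ≤ fun x => u.val x ^ 4 := fun x => by positivity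
    refine lt_of_le_of_ne (integral_nonneg hnn) fun h0 => hu ?_
    have := (integral_eq_zero_iff_of_nonneg hnn iu).1 h0.symm
    filter_upwards [this] with x hx
    simpa using hx
  have hcs : ∀ t : ℝ, 0 ≤ t ^ 2 * (∫ x, u.val x ^ 4) - 2 * t * (∫ x, u.val x ^ 2 * v.val x ^ 2) +
      ∫ x, v.val x ^ 4 := fun t => by
    have i4 : Integrable fun x => t ^ 2 * u.val x ^ 4 - 2 * t * (u.val x ^ 2 * v.val x ^ 2) :=
      (iu.const_mul _).sub (iuv.const_mul _)
    rw [← integral_const_mul, ← integral_const_mul, ← integral_sub (iu.const_mul _)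
      (iuv.const_mul _), ← integral_add i4 iv]
    refine integral_nonneg fun x => ?_
    simp only [Pi.zero_apply]
    nlinarith [sq_nonneg (t * u.val x ^ 2 - v.val x ^ 2)]
  set a := ∫ x, u.val x ^ 4
  set b := ∫ x, u.val x ^ 2 * v.val x ^ 2
  set c := ∫ x, v.val x ^ 4
  have hb : b ^ 2 ≤ a * c := by
    have h3 := hcs (b / a)
    have h4 : (b / a) ^ 2 * a - 2 * (b / a) * b + c = (a * c - b ^ 2) / a := by
      field_simp
      ring
    rw [h4] at h3
    have := (div_nonneg_iff.1 h3).resolve_right (fun h => absurd h.2 (not_le.2 ha))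
    linarith [this.1]
  rw [h1] at su
  rw [h1, h2]
  have h5 : a * (8 / 3) ≤ a * (2 * a + 16 * b + 32 * c) := by nlinarith
  have h6 := le_of_mul_le_mul_left h5 ha
  linarith

lemma not_solution : ¬ IsWeakSolution 1 5 2 32 8 (W (3 / 5)) (W (2 / 5)) := by
  rintro ⟨-, h⟩
  have hz := contDiff_z.continuous
  have ht := contDiff_th.continuous
  have key : ∀ g : ℝ → ℝ, ContDiff ℝ ∞ g → HasCompactSupport g →
      ∫ x, g x • (4 * z x - 6 * z x ^ 3) = 0 := by
    intro g hg hs
    have hgc := hg.continuous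
    have hg' : Continuous (deriv g) := hg.continuous_deriv (by simp)
    have h1 := h (ofSmooth g hg (hgc.memLp_of_hasCompactSupport hs)
      (hg'.memLp_of_hasCompactSupport hs.deriv))
    simp only [ofSmooth, W_der] at h1
    simp only [W_val] at h1
    have hd : ∀ x, HasDerivAt (fun x => -(2 / 5 * (z x * th x))) (2 / 5 * (z x - 2 * z x ^ 3)) x :=
      fun x => by
        refine (((hasDerivAt_z x).mul (hasDerivAt_th x)).const_mul (2 / 5)).neg.congr_deriv ?_
        have h : th x ^ 2 = 1 - z x ^ 2 := by linarith [z_sq_add x]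
        have : -(z x * th x) * th x = -(z x * th x ^ 2) := by ring
        rw [this, h]
        ring
    have i1 : Integrable fun x => -(2 / 5 * (z x * th x)) * deriv g x :=
      Continuous.integrable_of_hasCompactSupport (by fun_prop) hs.deriv.mul_left
    have i2 : Integrable fun x => 2 / 5 * (z x - 2 * z x ^ 3) * g x :=
      Continuous.integrable_of_hasCompactSupport (by fun_prop) hs.mul_left
    have i3 : Integrable fun x => -(2 / 5 * (z x * th x)) * g x :=
      Continuous.integrable_of_hasCompactSupport (by fun_prop) hs.mul_left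
    have i4 : Integrable fun x => z x * g x :=
      Continuous.integrable_of_hasCompactSupport (by fun_prop) hs.mul_left
    have i5 : Integrable fun x => z x ^ 3 * g x :=
      Continuous.integrable_of_hasCompactSupport (by fun_prop) hs.mul_left
    have h2 := integral_mul_deriv_eq_deriv_mul_of_integrable (fun x _ => hd x)
      (fun x _ => (hg.differentiable (by simp) x).hasDerivAt) i1 i2 i3
    have e1 : ∀ x, 5 * (2 / 5 * z x * g x) = 2 * (z x * g x) := fun x => by ring
    have e2 : ∀ x, (32 * (2 / 5 * z x) ^ 3 + 8 * (2 / 5 * z x * (3 / 5 * z x) ^ 2)) * g x =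
        16 / 5 * (z x ^ 3 * g x) := fun x => by ring
    have e3 : ∀ x, 2 / 5 * (z x - 2 * z x ^ 3) * g x =
        2 / 5 * (z x * g x) - 4 / 5 * (z x ^ 3 * g x) := fun x => by ring
    have e4 : ∀ x, g x • (4 * z x - 6 * z x ^ 3) =
        4 * (z x * g x) - 6 * (z x ^ 3 * g x) := fun x => by rw [smul_eq_mul]; ring
    simp only [e1, e2] at h1
    simp only [e3] at h2
    simp only [e4]
    rw [integral_add i1 (i4.const_mul _), h2, integral_sub (i4.const_mul _) (i5.const_mul _)] at h1
    rw [integral_sub (i4.const_mul _) (i5.const_mul _)]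
    simp only [integral_const_mul] at h1 ⊢
    linarith
  have hc : Continuous fun x => 4 * z x - 6 * z x ^ 3 := by fun_prop
  have h1 := ae_eq_zero_of_integral_contDiff_smul_eq_zero hc.locallyIntegrable key
  have h2 : (fun x => 4 * z x - 6 * z x ^ 3) = fun _ => 0 :=
    (Continuous.ae_eq_iff_eq volume hc continuous_const).1 h1
  have := congrFun h2 0
  norm_num [z] at this

end Pool.Agent.Lib.MP_a38b16_an
end
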