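import Pool.Agent.Lib.MP_a38b16_an.SDefs

/-! Basic calculus in `H^1_0(Ω)`: linear combinations, closure, chain rule. -/

open MeasureTheory Filter Topology Set
open scoped ContDiff ENNReal

namespace Pool.Agent.Lib.MP_a38b16_an.S

variable {N : ℕ} {Ω : Set (E N)}

/-- Test functions. -/
def Test (Ω : Set (E N)) (φ : E N → ℝ) : Prop :=
  ContDiff ℝ ∞ φ ∧ HasCompactSupport φ ∧ tsupport φ ⊆ Ω

/-- Unbundled membership in `H^1_0(Ω)`. -/
def IsH (Ω : Set (E N)) (w : E N → ℝ) (g : E N → E N) : Prop :=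
  MemLp w 2 (volume.restrict Ω) ∧ MemLp g 2 (volume.restrict Ω) ∧ ∃ φ : ℕ → E N → ℝ,
    (∀ n, Test Ω (φ n)) ∧
    Tendsto (fun n => eLpNorm (φ n - w) 2 (volume.restrict Ω)) atTop (𝓝 0) ∧
    Tendsto (fun n => eLpNorm (gradient (φ n) - g) 2 (volume.restrict Ω)) atTop (𝓝 0)

theorem H10.isH (w : H10 Ω) : IsH Ω w.val w.grad := ⟨w.memLp_val, w.memLp_grad, w.approx⟩

/-- Bundling. -/
def IsH.toH {w : E N → ℝ} {g : E N → E N} (h : IsH Ω w g) : H10 Ω := ⟨w, g, h.1, h.2.1, h.2.2⟩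

theorem Test.diff {φ : E N → ℝ} (h : Test Ω φ) : Differentiable ℝ φ :=
  h.1.differentiable (by simp)

theorem Test.cont {φ : E N → ℝ} (h : Test Ω φ) : Continuous φ := h.1.continuous

theorem Test.cont_fderiv {φ : E N → ℝ} (h : Test Ω φ) : Continuous (fderiv ℝ φ) :=
  h.1.continuous_fderiv (by simp)

theorem Test.cont_grad {φ : E N → ℝ} (h : Test Ω φ) : Continuous (gradient φ) :=
  (InnerProductSpace.toDual ℝ (E N)).symm.continuous.comp h.cont_fderiv

theorem norm_grad (φ : E N → ℝ) (x : E N) : ‖gradient φ x‖ = ‖fderiv ℝ φ x‖ := by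
  simp [gradient]

theorem Test.supp_grad {φ : E N → ℝ} (h : Test Ω φ) : HasCompactSupport (gradient φ) :=
  (h.2.1.fderiv ℝ).comp_left (g := fun L => (InnerProductSpace.toDual ℝ (E N)).symm L) (by simp)

theorem Test.memLp {φ : E N → ℝ} (h : Test Ω φ) (p : ℝ≥0∞) : MemLp φ p (volume.restrict Ω) :=
  (h.cont.memLp_of_hasCompactSupport h.2.1).restrict Ω

theorem Test.memLp_grad {φ : E N → ℝ} (h : Test Ω φ) (p : ℝ≥0∞) :
    MemLp (gradient φ) p (volume.restrict Ω) :=
  (h.cont_grad.memLp_of_hasCompactSupport h.supp_grad).restrict Ω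

theorem Test.isH {φ : E N → ℝ} (h : Test Ω φ) : IsH Ω φ (gradient φ) :=
  ⟨h.memLp 2, h.memLp_grad 2, fun _ => φ, fun _ => h, by simp, by simp⟩

theorem Test.comb {φ ψ : E N → ℝ} (h : Test Ω φ) (h' : Test Ω ψ) (s t : ℝ) :
    Test Ω (fun x => s * φ x + t * ψ x) := by
  refine ⟨(contDiff_const.mul h.1).add (contDiff_const.mul h'.1),
    (h.2.1.mul_left (f := fun _ => s)).add (h'.2.1.mul_left (f := fun _ => t)), ?_⟩
  refine (tsupport_add _ _).trans (union_subset ?_ ?_)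
  · exact tsupport_mul_subset_right.trans h.2.2
  · exact tsupport_mul_subset_right.trans h'.2.2

theorem grad_comb {φ ψ : E N → ℝ} {x : E N} (h : DifferentiableAt ℝ φ x)
    (h' : DifferentiableAt ℝ ψ x) (s t : ℝ) :
    gradient (fun x => s * φ x + t * ψ x) x = s • gradient φ x + t • gradient ψ x := by
  have := ((h.hasFDerivAt.const_mul s).add (h'.hasFDerivAt.const_mul t)).fderiv
  simp only [gradient]
  rw [show (fun x => s * φ x + t * ψ x) = (fun x => s * φ x) + fun x => t * ψ x from rfl, this]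
  simp

theorem grad_mul {φ ψ : E N → ℝ} {x : E N} (h : DifferentiableAt ℝ φ x)
    (h' : DifferentiableAt ℝ ψ x) :
    gradient (fun x => φ x * ψ x) x = φ x • gradient ψ x + ψ x • gradient φ x := by
  have := (h.hasFDerivAt.mul h'.hasFDerivAt).fderiv
  simp only [gradient]
  rw [show (fun x => φ x * ψ x) = φ * ψ from rfl, this]
  simp

theorem grad_comp {φ : E N → ℝ} {θ : ℝ → ℝ} {θ' : ℝ} {x : E N} (h : DifferentiableAt ℝ φ x)
    (hθ : HasDerivAt θ θ' (φ x)) :
    gradient (fun x => θ (φ x)) x = θ' • gradient φ x := by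
  have := (hθ.comp_hasFDerivAt x h.hasFDerivAt).fderiv
  simp only [gradient]
  rw [show (fun x => θ (φ x)) = θ ∘ φ from rfl, this]
  simp

section general
variable {X : Type*} [MeasurableSpace X] {μ : Measure X} {V : Type*} [NormedAddCommGroup V]

theorem tri {f g h : X → V} (hf : AEStronglyMeasurable f μ) (hg : AEStronglyMeasurable g μ)
    (hh : AEStronglyMeasurable h μ) :
    eLpNorm (f - h) 2 μ ≤ eLpNorm (f - g) 2 μ + eLpNorm (g - h) 2 μ := by
  have := eLpNorm_add_le (hf.sub hg) (hg.sub hh) (p := 2) (by norm_num)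
  rwa [sub_add_sub_cancel] at this

theorem dom {f : ℕ → X → V} {G : X → ℝ} (hf : ∀ n, AEStronglyMeasurable (f n) μ)
    (hG : MemLp G 2 μ) (hb : ∀ n, ∀ᵐ x ∂μ, ‖f n x‖ ≤ G x)
    (hl : ∀ᵐ x ∂μ, Tendsto (fun n => f n x) atTop (𝓝 0)) :
    Tendsto (fun n => eLpNorm (f n) 2 μ) atTop (𝓝 0) := by
  have hfin : ∫⁻ x, ‖G x‖ₑ ^ (2:ℝ) ∂μ ≠ ⊤ := by
    have := lintegral_rpow_enorm_lt_top_of_eLpNorm_lt_top (p := 2) (by norm_num) (by norm_num) hG.2
    simpa using this.ne
  have key := tendsto_lintegral_of_dominated_convergence' (μ := μ)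
    (F := fun n x => ‖f n x‖ₑ ^ (2:ℝ)) (f := fun _ => 0) (fun x => ‖G x‖ₑ ^ (2:ℝ))
    (fun n => (hf n).enorm.pow_const _)
    (fun n => by
      filter_upwards [hb n] with x hx
      refine ENNReal.rpow_le_rpow ?_ (by norm_num)
      rw [enorm_le_iff_norm_le]
      exact hx.trans (le_abs_self _))
    hfin
    (by
      filter_upwards [hl] with x hx
      have h1 : Tendsto (fun n => ‖f n x‖ₑ) atTop (𝓝 0) := by simpa using hx.enorm
      have h2 := (ENNReal.continuous_rpow_const (y := (2:ℝ))).tendsto 0 |>.comp h1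
      simpa [Function.comp_def] using h2)
  have h2 := (ENNReal.continuous_rpow_const (y := (1 / 2:ℝ))).tendsto _ |>.comp key
  simp only [lintegral_zero] at h2
  rw [ENNReal.zero_rpow_of_pos (by norm_num)] at h2
  refine h2.congr (fun n => ?_)
  rw [eLpNorm_eq_lintegral_rpow_enorm_toReal (by norm_num) (by norm_num)]
  simp

end general

theorem IsH.closure {w : E N → ℝ} {g : E N → E N} {wn : ℕ → E N → ℝ} {gn : ℕ → E N → E N}
    (h : ∀ n, IsH Ω (wn n) (gn n)) (hw : MemLp w 2 (volume.restrict Ω))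
    (hg : MemLp g 2 (volume.restrict Ω))
    (l1 : Tendsto (fun n => eLpNorm (wn n - w) 2 (volume.restrict Ω)) atTop (𝓝 0))
    (l2 : Tendsto (fun n => eLpNorm (gn n - g) 2 (volume.restrict Ω)) atTop (𝓝 0)) :
    IsH Ω w g := by
  have hpos : ∀ n : ℕ, (0:ℝ≥0∞) < (n:ℝ≥0∞)⁻¹ := fun n => by simp
  have : ∀ n, ∃ φ, Test Ω φ ∧ eLpNorm (φ - wn n) 2 (volume.restrict Ω) < (n:ℝ≥0∞)⁻¹ ∧
      eLpNorm (gradient φ - gn n) 2 (volume.restrict Ω) < (n:ℝ≥0∞)⁻¹ := by
    intro n
    obtain ⟨-, -, φ, h1, h2, h3⟩ := h n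
    obtain ⟨k, k1, k2⟩ := ((h2.eventually (gt_mem_nhds (hpos n))).and
      (h3.eventually (gt_mem_nhds (hpos n)))).exists
    exact ⟨φ k, h1 k, k1, k2⟩
  choose φ h1 h2 h3 using this
  refine ⟨hw, hg, φ, h1, ?_, ?_⟩
  · have := ENNReal.tendsto_inv_nat_nhds_zero.add l1
    rw [add_zero] at this
    refine tendsto_of_tendsto_of_tendsto_of_le_of_le tendsto_const_nhds this
      (fun _ => zero_le) (fun n => ?_)
    exact (tri ((h1 n).memLp 2).1 (h n).1.1 hw.1).trans (add_le_add (h2 n).le le_rfl)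
  · have := ENNReal.tendsto_inv_nat_nhds_zero.add l2
    rw [add_zero] at this
    refine tendsto_of_tendsto_of_tendsto_of_le_of_le tendsto_const_nhds this
      (fun _ => zero_le) (fun n => ?_)
    exact (tri ((h1 n).memLp_grad 2).1 (h n).2.1.1 hg.1).trans (add_le_add (h3 n).le le_rfl)

theorem comb_tendsto {X : Type*} [MeasurableSpace X] {μ : Measure X} {V : Type*}
    [NormedAddCommGroup V] [NormedSpace ℝ V] {a b c : ℕ → X → V} (s t : ℝ)
    (ha : ∀ n, AEStronglyMeasurable (a n) μ) (hb : ∀ n, AEStronglyMeasurable (b n) μ)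
    (hc : ∀ n, c n = s • a n + t • b n)
    (l1 : Tendsto (fun n => eLpNorm (a n) 2 μ) atTop (𝓝 0))
    (l2 : Tendsto (fun n => eLpNorm (b n) 2 μ) atTop (𝓝 0)) :
    Tendsto (fun n => eLpNorm (c n) 2 μ) atTop (𝓝 0) := by
  have := (ENNReal.Tendsto.const_mul (a := ‖s‖ₑ) l1 (Or.inr enorm_ne_top)).add
    (ENNReal.Tendsto.const_mul (a := ‖t‖ₑ) l2 (Or.inr enorm_ne_top))
  simp only [mul_zero, add_zero] at this
  refine tendsto_of_tendsto_of_tendsto_of_le_of_le tendsto_const_nhds this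
    (fun _ => zero_le) (fun n => ?_)
  rw [hc n]
  refine (eLpNorm_add_le ((ha n).const_smul s) ((hb n).const_smul t) (by norm_num)).trans ?_
  rw [eLpNorm_const_smul, eLpNorm_const_smul]

theorem IsH.comb {w w' : E N → ℝ} {g g' : E N → E N} (h : IsH Ω w g) (h' : IsH Ω w' g')
    (s t : ℝ) : IsH Ω (fun x => s * w x + t * w' x) (fun x => s • g x + t • g' x) := by
  obtain ⟨a1, a2, φ, a3, a4, a5⟩ := h
  obtain ⟨b1, b2, ψ, b3, b4, b5⟩ := h'
  refine ⟨(a1.const_mul s).add (b1.const_mul t), (a2.const_smul s).add (b2.const_smul t),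
    fun n x => s * φ n x + t * ψ n x, fun n => (a3 n).comb (b3 n) s t, ?_, ?_⟩
  · refine comb_tendsto s t (fun n => ((a3 n).memLp 2).1.sub a1.1)
      (fun n => ((b3 n).memLp 2).1.sub b1.1) (fun n => ?_) a4 b4
    ext x; simp; ring
  · refine comb_tendsto s t (fun n => ((a3 n).memLp_grad 2).1.sub a2.1)
      (fun n => ((b3 n).memLp_grad 2).1.sub b2.1) (fun n => ?_) a5 b5
    funext x
    simp only [Pi.sub_apply, Pi.add_apply, Pi.smul_apply]
    rw [grad_comb ((a3 n).diff x) ((b3 n).diff x)]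
    module

theorem IsH.congr {w w' : E N → ℝ} {g g' : E N → E N} (h : IsH Ω w g)
    (e1 : w =ᵐ[volume.restrict Ω] w') (e2 : g =ᵐ[volume.restrict Ω] g') : IsH Ω w' g' := by
  obtain ⟨a1, a2, φ, a3, a4, a5⟩ := h
  refine ⟨a1.ae_eq e1, a2.ae_eq e2, φ, a3, a4.congr (fun n => eLpNorm_congr_ae ?_),
    a5.congr (fun n => eLpNorm_congr_ae ?_)⟩
  · exact EventuallyEq.sub EventuallyEq.rfl e1
  · exact EventuallyEq.sub EventuallyEq.rfl e2

theorem IsH.exists_ae {w : E N → ℝ} {g : E N → E N} (h : IsH Ω w g) :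
    ∃ φ : ℕ → E N → ℝ, (∀ n, Test Ω (φ n)) ∧
    Tendsto (fun n => eLpNorm (φ n - w) 2 (volume.restrict Ω)) atTop (𝓝 0) ∧
    Tendsto (fun n => eLpNorm (gradient (φ n) - g) 2 (volume.restrict Ω)) atTop (𝓝 0) ∧
    ∀ᵐ x ∂(volume.restrict Ω), Tendsto (fun n => φ n x) atTop (𝓝 (w x)) := by
  obtain ⟨a1, a2, φ, a3, a4, a5⟩ := h
  obtain ⟨ns, h1, h2⟩ := (tendstoInMeasure_of_tendsto_eLpNorm (by norm_num)
    (fun n => ((a3 n).memLp 2).1) a1.1 a4).exists_seq_tendsto_ae
  exact ⟨fun n => φ (ns n), fun n => a3 _, a4.comp h1.tendsto_atTop, a5.comp h1.tendsto_atTop, h2⟩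

theorem IsH.chain {w : E N → ℝ} {g : E N → E N} (h : IsH Ω w g) {θ θ' : ℝ → ℝ}
    (hθ : ContDiff ℝ ∞ θ) (h0 : θ 0 = 0) (hd : ∀ s, HasDerivAt θ (θ' s) s)
    (hc : Continuous θ') (hb : ∀ s, |θ' s| ≤ 1) :
    IsH Ω (fun x => θ (w x)) (fun x => θ' (w x) • g x) := by
  obtain ⟨φ, a3, a4, a5, a6⟩ := h.exists_ae
  obtain ⟨a1, a2, -⟩ := h
  have lip : ∀ s t, |θ s - θ t| ≤ |s - t| := by
    intro s t
    have := Convex.norm_image_sub_le_of_norm_hasDerivWithin_le (f := θ) (f' := θ') (C := 1)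
      (s := univ) (x := t) (y := s) (fun x _ => (hd x).hasDerivWithinAt) (fun x _ => hb x)
      convex_univ trivial trivial
    simpa using this
  have m1 : AEStronglyMeasurable (fun x => θ (w x)) (volume.restrict Ω) :=
    hθ.continuous.comp_aestronglyMeasurable a1.1
  have m2 : AEStronglyMeasurable (fun x => θ' (w x)) (volume.restrict Ω) :=
    hc.comp_aestronglyMeasurable a1.1
  have m3 : ∀ n, AEStronglyMeasurable (fun x => θ' (φ n x)) (volume.restrict Ω) :=
    fun n => (hc.comp (a3 n).cont).aestronglyMeasurable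
  refine ⟨a1.of_le m1 (Eventually.of_forall fun x => ?_),
    a2.of_le (m2.smul a2.1) (Eventually.of_forall fun x => ?_),
    fun n x => θ (φ n x), fun n => ⟨hθ.comp (a3 n).1, (a3 n).2.1.comp_left h0,
      (tsupport_comp_subset h0 _).trans (a3 n).2.2⟩, ?_, ?_⟩
  · simpa [h0] using lip (w x) 0
  · rw [norm_smul]
    exact mul_le_of_le_one_left (norm_nonneg _) (hb _)
  · refine tendsto_of_tendsto_of_tendsto_of_le_of_le tendsto_const_nhds a4
      (fun _ => zero_le) (fun n => eLpNorm_mono (fun x => lip _ _))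
  · have l1 : Tendsto (fun n => eLpNorm (fun x => θ' (φ n x) • (gradient (φ n) x - g x)) 2
        (volume.restrict Ω)) atTop (𝓝 0) := by
      refine tendsto_of_tendsto_of_tendsto_of_le_of_le tendsto_const_nhds a5
        (fun _ => zero_le) (fun n => eLpNorm_mono (fun x => ?_))
      rw [norm_smul]
      exact mul_le_of_le_one_left (norm_nonneg _) (hb _)
    have l2 : Tendsto (fun n => eLpNorm (fun x => (θ' (φ n x) - θ' (w x)) • g x) 2
        (volume.restrict Ω)) atTop (𝓝 0) := by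
      refine dom (G := fun x => 2 * ‖g x‖) (fun n => ((m3 n).sub m2).smul a2.1)
        (a2.norm.const_mul 2) (fun n => Eventually.of_forall fun x => ?_) ?_
      · rw [norm_smul]
        refine mul_le_mul_of_nonneg_right ?_ (norm_nonneg _)
        have := hb (φ n x)
        have := hb (w x)
        rw [Real.norm_eq_abs, abs_le] at *
        constructor <;> linarith
      · filter_upwards [a6] with x hx
        have := (((hc.tendsto _).comp hx).sub_const (θ' (w x))).smul_const (g x)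
        simpa using this
    refine comb_tendsto 1 1 ?_ ?_ (fun n => ?_) l1 l2
    · exact fun n => (m3 n).smul (((a3 n).memLp_grad 2).1.sub a2.1)
    · exact fun n => ((m3 n).sub m2).smul a2.1
    funext x
    simp only [Pi.sub_apply, Pi.add_apply, Pi.smul_apply]
    rw [grad_comp ((a3 n).diff x) (hd _)]
    module

end Pool.Agent.Lib.MP_a38b16_an.S
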