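import Pool.Agent.Lib.MP_a38b16_an.SKit

/-! Absolute values, uniqueness of the gradient, locality of the gradient in `H^1_0(Ω)`. -/

open MeasureTheory Filter Topology Set
open scoped ContDiff ENNReal

namespace Pool.Agent.Lib.MP_a38b16_an.S

variable {N : ℕ} {Ω : Set (E N)}

theorem IsH.abs {w : E N → ℝ} {g : E N → E N} (h : IsH Ω w g) :
    IsH Ω (fun x => |w x|) (fun x => (w x / |w x|) • g x) := by
  set ε : ℕ → ℝ := fun n => 1 / ((n:ℝ) + 1) with hε
  have εpos : ∀ n, 0 < ε n := fun n => by simp only [hε]; positivity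
  have εlim : Tendsto ε atTop (𝓝 0) := tendsto_one_div_add_atTop_nhds_zero_nat
  have hne : ∀ n (s : ℝ), 0 < s ^ 2 + ε n ^ 2 := fun n s => by have := εpos n; positivity
  have hb : ∀ n (s : ℝ), |s / √(s ^ 2 + ε n ^ 2)| ≤ 1 := by
    intro n s
    rw [abs_div, abs_of_nonneg (Real.sqrt_nonneg _), div_le_one (Real.sqrt_pos.2 (hne n s))]
    exact Real.abs_le_sqrt (by nlinarith [sq_nonneg (ε n)])
  have hc : ∀ n, Continuous fun s : ℝ => s / √(s ^ 2 + ε n ^ 2) := fun n =>
    continuous_id.div (by fun_prop) (fun s => (Real.sqrt_pos.2 (hne n s)).ne')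
  have key : ∀ n, IsH Ω (fun x => √(w x ^ 2 + ε n ^ 2) - ε n)
      (fun x => (w x / √(w x ^ 2 + ε n ^ 2)) • g x) := by
    intro n
    refine h.chain (θ := fun s => √(s ^ 2 + ε n ^ 2) - ε n)
      (θ' := fun s => s / √(s ^ 2 + ε n ^ 2)) ?_ ?_ (fun s => ?_) (hc n) (hb n)
    · exact (((contDiff_id.pow 2).add contDiff_const).sqrt (fun s => (hne n s).ne')).sub
        contDiff_const
    · simp [Real.sqrt_sq (εpos n).le]
    · have := (((hasDerivAt_pow 2 s).add_const (ε n ^ 2)).sqrt (hne n s).ne').sub_const (ε n)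
      refine this.congr_deriv ?_
      have := (Real.sqrt_pos.2 (hne n s)).ne'
      field_simp
      norm_num
  obtain ⟨a1, a2, -⟩ := h
  have hs : ∀ s : ℝ, |s / (|s|)| ≤ 1 := by
    intro s
    rw [abs_div, abs_abs]
    exact div_self_le_one _
  have m0 : AEStronglyMeasurable (fun x => w x / |w x|) (volume.restrict Ω) := by
    have := a1.1.aemeasurable
    exact (this.div (continuous_abs.measurable.comp_aemeasurable this)).aestronglyMeasurable
  have m1 : MemLp (fun x => (w x / |w x|) • g x) 2 (volume.restrict Ω) := by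
    refine a2.of_le (m0.smul a2.1) (Eventually.of_forall fun x => ?_)
    rw [norm_smul]
    exact mul_le_of_le_one_left (norm_nonneg _) (hs _)
  refine IsH.closure key a1.abs m1 ?_ ?_
  · refine dom (G := fun x => |w x|) (fun n => (key n).1.1.sub a1.abs.1) a1.abs
      (fun n => Eventually.of_forall fun x => ?_) (Eventually.of_forall fun x => ?_)
    · have h1 : √(w x ^ 2 + ε n ^ 2) ≤ |w x| + ε n := by
        have := εpos n
        refine Real.sqrt_le_iff.2 ⟨by positivity, ?_⟩
        nlinarith [sq_abs (w x), abs_nonneg (w x)]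
      have h2 : ε n ≤ √(w x ^ 2 + ε n ^ 2) :=
        Real.le_sqrt_of_sq_le (by nlinarith [sq_nonneg (w x)])
      simp only [Pi.sub_apply, Real.norm_eq_abs]
      rw [abs_le]
      constructor <;> linarith [abs_nonneg (w x)]
    · have := ((((εlim.pow 2).const_add (w x ^ 2)).sqrt).sub εlim).sub_const (|w x|)
      simpa [Real.sqrt_sq_eq_abs] using this
  · refine dom (G := fun x => 2 * ‖g x‖) (fun n => (key n).2.1.1.sub m1.1)
      (a2.norm.const_mul 2) (fun n => Eventually.of_forall fun x => ?_)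
      (Eventually.of_forall fun x => ?_)
    · simp only [Pi.sub_apply]
      rw [← sub_smul, norm_smul]
      refine mul_le_mul_of_nonneg_right ?_ (norm_nonneg _)
      have := hb n (w x)
      have := hs (w x)
      rw [Real.norm_eq_abs, abs_le] at *
      constructor <;> linarith
    · simp only [Pi.sub_apply, ← sub_smul]
      by_cases h0 : w x = 0
      · simp [h0]
      · have h1 := (((εlim.pow 2).const_add (w x ^ 2)).sqrt)
        simp only [ne_eq, OfNat.ofNat_ne_zero, not_false_eq_true, zero_pow, add_zero,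
          Real.sqrt_sq_eq_abs] at h1
        have := (((tendsto_const_nhds (x := w x)).div h1 (abs_ne_zero.2 h0)).sub_const
          (w x / |w x|)).smul_const (g x)
        simpa using this

section general
variable {X : Type*} [MeasurableSpace X] {μ : Measure X} {V : Type*} [NormedAddCommGroup V]
  [InnerProductSpace ℝ V]

theorem inner_toLp {a b : X → V} (ha : MemLp a 2 μ) (hb : MemLp b 2 μ) :
    inner ℝ (ha.toLp a) (hb.toLp b) = ∫ x, inner ℝ (a x) (b x) ∂μ := by
  rw [L2.inner_def]
  refine integral_congr_ae ?_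
  filter_upwards [ha.coeFn_toLp, hb.coeFn_toLp] with x h1 h2
  rw [h1, h2]

theorem integrable_inner2 {a b : X → V} (ha : MemLp a 2 μ) (hb : MemLp b 2 μ) :
    Integrable (fun x => inner ℝ (a x) (b x)) μ := by
  refine (L2.integrable_inner (𝕜 := ℝ) (ha.toLp a) (hb.toLp b)).congr ?_
  filter_upwards [ha.coeFn_toLp, hb.coeFn_toLp] with x h1 h2
  rw [h1, h2]

theorem inner_lim {an : ℕ → X → V} {a b : X → V} (hn : ∀ n, MemLp (an n) 2 μ) (ha : MemLp a 2 μ)
    (hb : MemLp b 2 μ) (l : Tendsto (fun n => eLpNorm (an n - a) 2 μ) atTop (𝓝 0)) :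
    Tendsto (fun n => ∫ x, inner ℝ (an n x) (b x) ∂μ) atTop (𝓝 (∫ x, inner ℝ (a x) (b x) ∂μ)) := by
  have := ((Lp.tendsto_Lp_iff_tendsto_eLpNorm'' an hn a ha).2 l).inner (𝕜 := ℝ)
    (tendsto_const_nhds (x := hb.toLp b))
  simpa only [inner_toLp] using this

end general

theorem Test.zero_of_notMem {φ : E N → ℝ} (h : Test Ω φ) {x : E N} (hx : x ∉ Ω) : φ x = 0 :=
  image_eq_zero_of_notMem_tsupport (fun h' => hx (h.2.2 h'))

theorem fund (hΩ : IsOpen Ω) {f : E N → ℝ} (hf : LocallyIntegrable f (volume.restrict Ω))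
    (h : ∀ ψ, Test Ω ψ → ∫ x in Ω, f x * ψ x = 0) : f =ᵐ[volume.restrict Ω] 0 := by
  have := hΩ.ae_eq_zero_of_integral_contDiff_smul_eq_zero (μ := volume)
    (locallyIntegrableOn_of_locallyIntegrable_restrict hf) (fun ψ h1 h2 h3 => by
      have t : Test Ω ψ := ⟨h1, h2, h3⟩
      rw [← setIntegral_eq_integral_of_forall_compl_eq_zero (s := Ω)
        (fun x hx => by simp [t.zero_of_notMem hx]), ← h ψ t]
      simp [mul_comm])
  exact (ae_restrict_iff' hΩ.measurableSet).2 this

theorem Test.parts {φ ψ : E N → ℝ} (h : Test Ω φ) (h' : Test Ω ψ) (e : E N) :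
    ∫ x in Ω, inner ℝ (gradient φ x) (ψ x • e) =
      -∫ x in Ω, inner ℝ (φ x) (fderiv ℝ ψ x e) := by
  have c1 : Continuous fun x => fderiv ℝ φ x e := h.cont_fderiv.clm_apply continuous_const
  have c2 : Continuous fun x => fderiv ℝ ψ x e := h'.cont_fderiv.clm_apply continuous_const
  have := integral_mul_fderiv_eq_neg_fderiv_mul_of_integrable (μ := volume) (f := φ) (g := ψ)
    (v := e) ((c1.mul h'.cont).integrable_of_hasCompactSupport h'.2.1.mul_left)
    ((h.cont.mul c2).integrable_of_hasCompactSupport h.2.1.mul_right)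
    ((h.cont.mul h'.cont).integrable_of_hasCompactSupport h.2.1.mul_right)
    (fun x _ => h.diff x) (fun x _ => h'.diff x)
  rw [setIntegral_eq_integral_of_forall_compl_eq_zero
      (fun x hx => by simp [h'.zero_of_notMem hx]),
    setIntegral_eq_integral_of_forall_compl_eq_zero (fun x hx => by simp [h.zero_of_notMem hx])]
  simp only [inner_smul_right, inner_gradient_left, RCLike.inner_apply, conj_trivial]
  simp only [mul_comm (fderiv ℝ ψ _ e), this, neg_neg, mul_comm]

theorem IsH.unique (hΩ : IsOpen Ω) {w : E N → ℝ} {g : E N → E N} (h : IsH Ω w g)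
    (h0 : w =ᵐ[volume.restrict Ω] 0) : g =ᵐ[volume.restrict Ω] 0 := by
  obtain ⟨a1, a2, φ, a3, a4, a5⟩ := h
  have key : ∀ e : E N, (fun x => inner ℝ (g x) e) =ᵐ[volume.restrict Ω] 0 := by
    intro e
    have m : MemLp (fun x => inner ℝ (g x) e) 2 (volume.restrict Ω) := a2.inner_const e
    refine fund hΩ (m.locallyIntegrable (by norm_num)) (fun ψ t => ?_)
    have c2 : Continuous fun x => fderiv ℝ ψ x e := t.cont_fderiv.clm_apply continuous_const
    have m1 : MemLp (fun x => ψ x • e) 2 (volume.restrict Ω) :=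
      ((t.cont.smul continuous_const).memLp_of_hasCompactSupport t.2.1.smul_right).restrict Ω
    have m2 : MemLp (fun x => fderiv ℝ ψ x e) 2 (volume.restrict Ω) :=
      (c2.memLp_of_hasCompactSupport (t.2.1.fderiv_apply ℝ e)).restrict Ω
    have l1 := inner_lim (fun n => (a3 n).memLp_grad 2) a2 m1 a5
    have l2 := (inner_lim (fun n => (a3 n).memLp 2) a1 m2 a4).neg
    simp only [fun n => (a3 n).parts t e] at l1
    have e1 := tendsto_nhds_unique l1 l2
    have e2 : ∫ x in Ω, inner ℝ (w x) (fderiv ℝ ψ x e) = 0 := by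
      refine integral_eq_zero_of_ae ?_
      filter_upwards [h0] with x hx
      simp [hx]
    rw [e2, neg_zero] at e1
    rw [← e1]
    simp only [inner_smul_right, mul_comm]
  have := ae_all_iff.2 (fun i : Fin N => key (EuclideanSpace.single i 1))
  filter_upwards [this] with x hx
  ext i
  simpa [EuclideanSpace.inner_single_right] using hx i

theorem IsH.unique2 (hΩ : IsOpen Ω) {w w' : E N → ℝ} {g g' : E N → E N} (h : IsH Ω w g)
    (h' : IsH Ω w' g') (h0 : w =ᵐ[volume.restrict Ω] w') : g =ᵐ[volume.restrict Ω] g' := by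
  have := (h.comb h' 1 (-1)).unique hΩ (by
    filter_upwards [h0] with x hx
    simp [hx])
  filter_upwards [this] with x hx
  simpa [← sub_eq_add_neg, sub_eq_zero] using hx

/-- The gradient vanishes almost everywhere on the zero set. -/
theorem IsH.zero_set (hΩ : IsOpen Ω) {w : E N → ℝ} {g : E N → E N} (h : IsH Ω w g) :
    ∀ᵐ x ∂(volume.restrict Ω), w x = 0 → g x = 0 := by
  have h1 := h.comb h.abs 1 1
  have h2 := h1.unique2 hΩ h1.abs (Eventually.of_forall fun x => by
    simp only [one_mul]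
    exact (abs_of_nonneg (by linarith [neg_abs_le (w x)])).symm)
  filter_upwards [h2] with x hx h0
  simpa [h0] using hx

theorem IsH.orth (hΩ : IsOpen Ω) {w w' : E N → ℝ} {g g' : E N → E N} (h : IsH Ω w g)
    (h' : IsH Ω w' g') (h0 : ∀ᵐ x ∂(volume.restrict Ω), w x = 0 ∨ w' x = 0) :
    ∀ᵐ x ∂(volume.restrict Ω), inner ℝ (g x) (g' x) = 0 := by
  filter_upwards [h0, h.zero_set hΩ, h'.zero_set hΩ] with x h1 h2 h3
  rcases h1 with h1 | h1
  · simp [h2 h1]
  · simp [h3 h1]

/-- The part of `u` living on the zero set of `v`. -/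
theorem exists_part (hΩ : IsOpen Ω) (u v : H10 Ω) {c : ℝ}
    (h : ∀ᵐ x ∂(volume.restrict Ω), v.val x = 0 ∨ |u.val x| = c * |v.val x|) :
    ∃ z : H10 Ω, ∀ᵐ x ∂(volume.restrict Ω), (v.val x = 0 → z.val x = u.val x) ∧
      (v.val x ≠ 0 → z.val x = 0) ∧ inner ℝ (u.grad x) (z.grad x) = ‖z.grad x‖ ^ 2 := by
  have h1 := u.isH.comb v.isH.abs 1 (-c)
  have h2 := u.isH.comb v.isH.abs (-1) (-c)
  have h3 := (h1.comb h1.abs (1 / 2) (1 / 2)).comb (h2.comb h2.abs (1 / 2) (1 / 2)) 1 (-1)
  have hz : ∀ᵐ x ∂(volume.restrict Ω), (v.val x = 0 → h3.toH.val x = u.val x) ∧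
      (v.val x ≠ 0 → h3.toH.val x = 0) := by
    filter_upwards [h] with x hx
    simp only [IsH.toH]
    refine ⟨fun h0 => ?_, fun h0 => ?_⟩
    · simp only [h0, abs_zero, mul_zero, add_zero, one_mul, neg_mul, abs_neg]; ring
    · have e := hx.resolve_left h0
      rw [abs_of_nonpos (a := 1 * u.val x + -c * |v.val x|) (by linarith [le_abs_self (u.val x)]),
        abs_of_nonpos (a := -1 * u.val x + -c * |v.val x|) (by linarith [neg_abs_le (u.val x)])]
      ring
  refine ⟨h3.toH, ?_⟩
  generalize h3.toH = z at hz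
  have h4 := (u.isH.comb z.isH 1 (-1)).orth hΩ z.isH (by
    filter_upwards [hz] with x hx
    by_cases h0 : v.val x = 0
    · left; rw [hx.1 h0]; ring
    · right; exact hx.2 h0)
  filter_upwards [hz, h4] with x hx h5
  refine ⟨hx.1, hx.2, ?_⟩
  simp only [one_smul, neg_smul, inner_add_left, inner_neg_left, real_inner_self_eq_norm_sq] at h5
  linarith

end Pool.Agent.Lib.MP_a38b16_an.S
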