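import Mathlib

/-! Real-variable lemmas behind the Lagrange multiplier argument. -/

open Filter Topology Set

namespace Pool.Agent.Lib.MP_a38b16_an.S

/-- Minimality of the level `m`, tested on the rescalings of a pair with data `a b P Q R`. -/
def MinP (m a b P Q R : ℝ) : Prop :=
  0 < P → 0 < Q → ∀ ξ η : ℝ, 0 < ξ → 0 < η → ξ * P + η * R = a → ξ * R + η * Q = b →
    m ≤ ξ * a + η * b

theorem MinP.swap {m a b P Q R : ℝ} (h : MinP m a b P Q R) : MinP m b a Q P R := by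
  intro hQ hP ξ η hξ hη h1 h2
  have := h hP hQ η ξ hη hξ (by linarith) (by linarith)
  linarith

theorem nondeg {a b P Q R : ℝ → ℝ} {a' b' P' Q' R' : ℝ}
    (ha : HasDerivAt a a' 0) (hb : HasDerivAt b b' 0) (hP : HasDerivAt P P' 0)
    (hQ : HasDerivAt Q Q' 0) (hR : HasDerivAt R R' 0)
    (h1 : a 0 = P 0 + R 0) (h2 : b 0 = R 0 + Q 0) (hP0 : 0 < P 0) (hQ0 : 0 < Q 0)
    (hdet : P 0 * Q 0 - R 0 ^ 2 ≠ 0)
    (hmin : ∀ t, MinP (a 0 + b 0) (a t) (b t) (P t) (Q t) (R t)) :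
    2 * a' + 2 * b' = P' + 2 * R' + Q' := by
  set d : ℝ → ℝ := fun t => P t * Q t - R t ^ 2 with hd
  set ξ : ℝ → ℝ := fun t => (a t * Q t - b t * R t) / d t with hξ
  set η : ℝ → ℝ := fun t => (b t * P t - a t * R t) / d t with hη
  have dd : DifferentiableAt ℝ d 0 :=
    (hP.differentiableAt.mul hQ.differentiableAt).sub (hR.differentiableAt.pow 2)
  have dξ : DifferentiableAt ℝ ξ 0 :=
    ((ha.differentiableAt.mul hQ.differentiableAt).sub
      (hb.differentiableAt.mul hR.differentiableAt)).div dd hdet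
  have dη : DifferentiableAt ℝ η 0 :=
    ((hb.differentiableAt.mul hP.differentiableAt).sub
      (ha.differentiableAt.mul hR.differentiableAt)).div dd hdet
  have ξ0 : ξ 0 = 1 := by
    simp only [hξ, hd]; rw [div_eq_one_iff_eq hdet, h1, h2]; ring
  have η0 : η 0 = 1 := by
    simp only [hη, hd]; rw [div_eq_one_iff_eq hdet, h1, h2]; ring
  have ed : ∀ᶠ t in 𝓝 (0:ℝ), d t ≠ 0 := dd.continuousAt.eventually_ne hdet
  have eξ : ∀ᶠ t in 𝓝 (0:ℝ), 0 < ξ t :=
    continuousAt_const.eventually_lt dξ.continuousAt (by rw [ξ0]; norm_num)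
  have eη : ∀ᶠ t in 𝓝 (0:ℝ), 0 < η t :=
    continuousAt_const.eventually_lt dη.continuousAt (by rw [η0]; norm_num)
  have eP : ∀ᶠ t in 𝓝 (0:ℝ), 0 < P t := continuousAt_const.eventually_lt hP.continuousAt hP0
  have eQ : ∀ᶠ t in 𝓝 (0:ℝ), 0 < Q t := continuousAt_const.eventually_lt hQ.continuousAt hQ0
  have e1 : ∀ᶠ t in 𝓝 (0:ℝ), ξ t * P t + η t * R t = a t := by
    filter_upwards [ed] with t ht
    simp only [hξ, hη]; field_simp; simp only [hd]; ring
  have e2 : ∀ᶠ t in 𝓝 (0:ℝ), ξ t * R t + η t * Q t = b t := by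
    filter_upwards [ed] with t ht
    simp only [hξ, hη]; field_simp; simp only [hd]; ring
  have k1 := ((dξ.hasDerivAt.mul hP).add (dη.hasDerivAt.mul hR)).unique
    (ha.congr_of_eventuallyEq e1)
  have k2 := ((dξ.hasDerivAt.mul hR).add (dη.hasDerivAt.mul hQ)).unique
    (hb.congr_of_eventuallyEq e2)
  have hloc : IsLocalMin (fun t => ξ t * a t + η t * b t) 0 := by
    filter_upwards [e1, e2, eξ, eη, eP, eQ] with t t1 t2 t3 t4 t5 t6
    have := hmin t t5 t6 _ _ t3 t4 t1 t2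
    simp only [ξ0, η0]; linarith
  have k3 := hloc.hasDerivAt_eq_zero ((dξ.hasDerivAt.mul ha).add (dη.hasDerivAt.mul hb))
  rw [ξ0, η0] at k1 k2 k3
  rw [h1, h2] at k3
  linarith

theorem K1 {m a b P Q R : ℝ} (h : MinP m a b P Q R) (ha : 0 < a) (hb : 0 < b) (hP : 0 < P)
    (hQ : 0 < Q) (h1 : P * b < R * a) (h2 : Q * a < R * b) : m * P < a ^ 2 := by
  have hR : 0 < R := by
    by_contra hc
    push Not at hc
    nlinarith [mul_pos hP hb, mul_nonneg_of_nonpos_of_nonpos hc hc]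
  have hdet : 0 < R ^ 2 - P * Q := by
    have : P * b * (Q * a) < R * a * (R * b) :=
      mul_lt_mul'' h1 h2 (by positivity) (by positivity)
    have hab : 0 < a * b := by positivity
    by_contra hc
    push Not at hc
    nlinarith
  have hη : 0 < (R * a - P * b) / (R ^ 2 - P * Q) := div_pos (by linarith) hdet
  have hξ : 0 < (R * b - Q * a) / (R ^ 2 - P * Q) := div_pos (by linarith) hdet
  have e1 : (R * b - Q * a) / (R ^ 2 - P * Q) * P + (R * a - P * b) / (R ^ 2 - P * Q) * R = a := by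
    rw [div_mul_eq_mul_div, div_mul_eq_mul_div, ← add_div, div_eq_iff hdet.ne']; ring
  have e2 : (R * b - Q * a) / (R ^ 2 - P * Q) * R + (R * a - P * b) / (R ^ 2 - P * Q) * Q = b := by
    rw [div_mul_eq_mul_div, div_mul_eq_mul_div, ← add_div, div_eq_iff hdet.ne']; ring
  have := h hP hQ _ _ hξ hη e1 e2
  set ξ := (R * b - Q * a) / (R ^ 2 - P * Q)
  set η := (R * a - P * b) / (R ^ 2 - P * Q)
  have k : (ξ * a + η * b) * P = a ^ 2 - η * (R * a - P * b) := by
    have : ξ * P = a - η * R := by linarith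
    calc (ξ * a + η * b) * P = a * (ξ * P) + η * b * P := by ring
      _ = _ := by rw [this]; ring
  have k2 : 0 < η * (R * a - P * b) := mul_pos hη (by linarith)
  have k3 : m * P ≤ (ξ * a + η * b) * P := mul_le_mul_of_nonneg_right this hP.le
  linarith

theorem K2 {m a b P Q R : ℝ} (h : MinP m a b P Q R) (ha : 0 < a) (hb : 0 < b) (hP : 0 < P)
    (hQ : 0 < Q) (hR : 0 < R) (h1 : 0 < P * b - R * a) (h2 : 0 < Q * a - R * b) :
    ((P * b - R * a) * b + (Q * a - R * b) * a) * (m * R - a * b) +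
      m * ((P * b - R * a) * (Q * a - R * b)) ≤ 0 := by
  have hab : 0 < a * b := by positivity
  have hdet : 0 < P * Q - R ^ 2 := by
    have : R * a * (R * b) < P * b * (Q * a) :=
      mul_lt_mul'' (by linarith) (by linarith) (by positivity) (by positivity)
    by_contra hc
    push Not at hc
    nlinarith
  have hη : 0 < (P * b - R * a) / (P * Q - R ^ 2) := div_pos h1 hdet
  have hξ : 0 < (Q * a - R * b) / (P * Q - R ^ 2) := div_pos h2 hdet
  have e1 : (Q * a - R * b) / (P * Q - R ^ 2) * P + (P * b - R * a) / (P * Q - R ^ 2) * R = a := by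
    rw [div_mul_eq_mul_div, div_mul_eq_mul_div, ← add_div, div_eq_iff hdet.ne']; ring
  have e2 : (Q * a - R * b) / (P * Q - R ^ 2) * R + (P * b - R * a) / (P * Q - R ^ 2) * Q = b := by
    rw [div_mul_eq_mul_div, div_mul_eq_mul_div, ← add_div, div_eq_iff hdet.ne']; ring
  have := h hP hQ _ _ hξ hη e1 e2
  have k : m * (P * Q - R ^ 2) ≤ (Q * a - R * b) * a + (P * b - R * a) * b := by
    have e : (Q * a - R * b) / (P * Q - R ^ 2) * a + (P * b - R * a) / (P * Q - R ^ 2) * b =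
        ((Q * a - R * b) * a + (P * b - R * a) * b) / (P * Q - R ^ 2) := by ring
    rw [e, le_div_iff₀ hdet] at this
    exact this
  have e : ((P * b - R * a) * b + (Q * a - R * b) * a) * (m * R - a * b) +
      m * ((P * b - R * a) * (Q * a - R * b)) =
      a * b * (m * (P * Q - R ^ 2) - ((Q * a - R * b) * a + (P * b - R * a) * b)) := by ring
  rw [e]
  exact mul_nonpos_of_nonneg_of_nonpos hab.le (by linarith)

theorem slope_right {X : ℝ → ℝ} {X' : ℝ} (h : HasDerivAt X X' 0) (h0 : X 0 = 0) :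
    Tendsto (fun t => X t / t) (𝓝[>] 0) (𝓝 X') := by
  have := (hasDerivAt_iff_tendsto_slope_zero.1 h).mono_left (nhdsGT_le_nhdsNE (0:ℝ))
  refine this.congr (fun t => ?_)
  simp [h0, div_eq_inv_mul]

theorem pos_right {X : ℝ → ℝ} {X' : ℝ} (h : HasDerivAt X X' 0) (h0 : X 0 = 0) (hp : 0 < X') :
    ∀ᶠ t in 𝓝[>] (0:ℝ), 0 < X t := by
  have e := (slope_right h h0).eventually (lt_mem_nhds hp)
  filter_upwards [e, self_mem_nhdsWithin] with t h1 h2
  have h2' : (0:ℝ) < t := h2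
  exact (div_pos_iff_of_pos_right h2').1 h1

/-- Data of a degenerate point. -/
theorem degen {a b P Q R : ℝ} (h1 : a = P + R) (h2 : b = R + Q) (hdet : P * Q - R ^ 2 = 0) :
    P * b = R * a ∧ Q * a = R * b ∧ (a + b) * R = a * b ∧ (a + b) * P = a ^ 2 := by
  subst h1 h2
  refine ⟨by linarith, by linarith, by nlinarith, by nlinarith⟩

theorem second {a b P Q R : ℝ → ℝ} {a' b' P' Q' R' : ℝ}
    (ha : HasDerivAt a a' 0) (hb : HasDerivAt b b' 0) (hP : HasDerivAt P P' 0)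
    (hQ : HasDerivAt Q Q' 0) (hR : HasDerivAt R R' 0)
    (h1 : a 0 = P 0 + R 0) (h2 : b 0 = R 0 + Q 0) (hP0 : 0 < P 0) (hQ0 : 0 < Q 0)
    (hR0 : 0 < R 0) (hdet : P 0 * Q 0 - R 0 ^ 2 = 0)
    (hmin : ∀ t, MinP (a 0 + b 0) (a t) (b t) (P t) (Q t) (R t))
    (hX : 0 < P' / P 0 + b' / b 0 - R' / R 0 - a' / a 0)
    (hY : 0 < Q' / Q 0 + a' / a 0 - R' / R 0 - b' / b 0)
    (hZ : 0 ≤ R' / R 0 - a' / a 0 - b' / b 0) : False := by
  have ha0 : 0 < a 0 := by rw [h1]; positivity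
  have hb0 : 0 < b 0 := by rw [h2]; positivity
  obtain ⟨d1, d2, d3, -⟩ := degen h1 h2 hdet
  set m := a 0 + b 0 with hm
  have hm0 : 0 < m := by positivity
  have dX := (hP.mul hb).sub (hR.mul ha)
  have dY := (hQ.mul ha).sub (hR.mul hb)
  have dZ := (hR.const_mul m).sub (ha.mul hb)
  have hX' : 0 < P' * b 0 + P 0 * b' - (R' * a 0 + R 0 * a') := by
    have e : P' * b 0 + P 0 * b' - (R' * a 0 + R 0 * a') =
        (P 0 * b 0) * (P' / P 0 + b' / b 0) - (R 0 * a 0) * (R' / R 0 + a' / a 0) := by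
      field_simp
    rw [e, ← d1, ← mul_sub]
    exact mul_pos (by positivity) (by linarith)
  have hY' : 0 < Q' * a 0 + Q 0 * a' - (R' * b 0 + R 0 * b') := by
    have e : Q' * a 0 + Q 0 * a' - (R' * b 0 + R 0 * b') =
        (Q 0 * a 0) * (Q' / Q 0 + a' / a 0) - (R 0 * b 0) * (R' / R 0 + b' / b 0) := by
      field_simp
    rw [e, ← d2, ← mul_sub]
    exact mul_pos (by positivity) (by linarith)
  have hZ' : 0 ≤ m * R' - (a' * b 0 + a 0 * b') := by
    have e : m * R' - (a' * b 0 + a 0 * b') =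
        (m * R 0) * (R' / R 0) - (a 0 * b 0) * (a' / a 0 + b' / b 0) := by
      field_simp
    rw [e, d3, ← mul_sub]
    exact mul_nonneg (by positivity) (by linarith)
  have sX := slope_right dX (by simp [d1])
  have sY := slope_right dY (by simp [d2])
  have sZ := slope_right dZ (by simp [d3])
  have ca : Tendsto a (𝓝[>] 0) (𝓝 (a 0)) := ha.continuousAt.tendsto.mono_left nhdsWithin_le_nhds
  have cb : Tendsto b (𝓝[>] 0) (𝓝 (b 0)) := hb.continuousAt.tendsto.mono_left nhdsWithin_le_nhds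
  have cP : Tendsto P (𝓝[>] 0) (𝓝 (P 0)) := hP.continuousAt.tendsto.mono_left nhdsWithin_le_nhds
  have cQ : Tendsto Q (𝓝[>] 0) (𝓝 (Q 0)) := hQ.continuousAt.tendsto.mono_left nhdsWithin_le_nhds
  have cR : Tendsto R (𝓝[>] 0) (𝓝 (R 0)) := hR.continuousAt.tendsto.mono_left nhdsWithin_le_nhds
  have lim := ((sX.mul cb).add (sY.mul ca)).mul sZ |>.add ((sX.mul sY).const_mul m)
  have hle := le_of_tendsto (b := 0) lim (by
    filter_upwards [pos_right dX (by simp [d1]) hX', pos_right dY (by simp [d2]) hY',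
      ca.eventually (lt_mem_nhds ha0), cb.eventually (lt_mem_nhds hb0),
      cP.eventually (lt_mem_nhds hP0), cQ.eventually (lt_mem_nhds hQ0),
      cR.eventually (lt_mem_nhds hR0), self_mem_nhdsWithin] with t t1 t2 t3 t4 t5 t6 t7 t8
    have t9 : (0:ℝ) < t := t8
    have := K2 (hmin t) t3 t4 t5 t6 t7 t1 t2
    simp only [Pi.sub_apply, Pi.mul_apply]
    have e : ∀ X Y Z : ℝ, (X / t * b t + Y / t * a t) * (Z / t) + m * (X / t * (Y / t)) =
        ((X * b t + Y * a t) * Z + m * (X * Y)) / t ^ 2 := by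
      intro X Y Z; field_simp
    rw [e]
    exact div_nonpos_of_nonpos_of_nonneg this (by positivity))
  have p1 := mul_nonneg (add_pos (mul_pos hX' hb0) (mul_pos hY' ha0)).le hZ'
  have p2 := mul_pos hm0 (mul_pos hX' hY')
  linarith

theorem first {a P : ℝ} {b Q R : ℝ → ℝ} {b' Q' R' : ℝ}
    (hb : HasDerivAt b b' 0) (hQ : HasDerivAt Q Q' 0) (hR : HasDerivAt R R' 0)
    (h1 : a = P + R 0) (h2 : b 0 = R 0 + Q 0) (hP0 : 0 < P) (hQ0 : 0 < Q 0)
    (hR0 : 0 < R 0) (hdet : P * Q 0 - R 0 ^ 2 = 0)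
    (hrip : ∀ t δ : ℝ, 0 ≤ δ → ∃ Qn Rn : ℕ → ℝ, Tendsto Qn atTop (𝓝 (Q t)) ∧
      Tendsto Rn atTop (𝓝 (R t)) ∧ ∀ n, MinP (a + b 0) a (b t + δ) P (Qn n) (Rn n))
    (hf : 0 < 2 * (R' / R 0) - Q' / Q 0) (hg : 0 < R' / R 0 - b' / b 0) : False := by
  have ha0 : 0 < a := by rw [h1]; positivity
  have hb0 : 0 < b 0 := by rw [h2]; positivity
  obtain ⟨d1, -, -, d4⟩ := degen h1 h2 hdet
  have dX := (hR.mul hR).sub (hQ.const_mul P)
  have dY := (hR.mul_const a).sub (hb.const_mul P)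
  have hd' : P * Q 0 = R 0 * R 0 := by linarith
  have hX' : 0 < R' * R 0 + R 0 * R' - P * Q' := by
    have e : R' * R 0 + R 0 * R' - P * Q' =
        (R 0 * R 0) * (2 * (R' / R 0)) - (P * Q 0) * (Q' / Q 0) := by
      field_simp; ring
    rw [e, hd', ← mul_sub]
    exact mul_pos (by positivity) hf
  have hY' : 0 < R' * a - P * b' := by
    have e : R' * a - P * b' = (R 0 * a) * (R' / R 0) - (P * b 0) * (b' / b 0) := by
      field_simp
    rw [e, d1, ← mul_sub]
    exact mul_pos (by positivity) hg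
  have cb : Tendsto b (𝓝[>] 0) (𝓝 (b 0)) := hb.continuousAt.tendsto.mono_left nhdsWithin_le_nhds
  have cQ : Tendsto Q (𝓝[>] 0) (𝓝 (Q 0)) := hQ.continuousAt.tendsto.mono_left nhdsWithin_le_nhds
  have cR : Tendsto R (𝓝[>] 0) (𝓝 (R 0)) := hR.continuousAt.tendsto.mono_left nhdsWithin_le_nhds
  obtain ⟨t, t1, t2, t3, t4, t5⟩ := ((pos_right dX (by simp [hd']) hX').and
    ((pos_right dY (by simp [d1]) hY').and ((cb.eventually (lt_mem_nhds hb0)).and
      ((cQ.eventually (lt_mem_nhds hQ0)).and (cR.eventually (lt_mem_nhds hR0)))))).exists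
  simp only [Pi.sub_apply, Pi.mul_apply] at t1 t2
  have u1 : b t < R t * a / P := by rw [lt_div_iff₀ hP0]; linarith
  have u2 : Q t * a / R t < R t * a / P := by
    rw [div_lt_div_iff₀ t5 hP0]; nlinarith
  obtain ⟨c, c1, c2⟩ := exists_between (max_lt u1 u2)
  have c3 : b t < c := (le_max_left _ _).trans_lt c1
  have c4 : Q t * a / R t < c := (le_max_right _ _).trans_lt c1
  rw [div_lt_iff₀ t5] at c4
  rw [lt_div_iff₀ hP0] at c2
  obtain ⟨Qn, Rn, q1, q2, q3⟩ := hrip t (c - b t) (by linarith)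
  have v1 : ∀ᶠ n in atTop, P * c < Rn n * a :=
    (q2.mul_const a).eventually (lt_mem_nhds (by linarith))
  have v2 : ∀ᶠ n in atTop, 0 < Rn n * c - Qn n * a :=
    ((q2.mul_const c).sub (q1.mul_const a)).eventually (lt_mem_nhds (by linarith))
  obtain ⟨n, n1, n2, n3⟩ := (v1.and (v2.and (q1.eventually (lt_mem_nhds t4)))).exists
  have k := q3 n
  rw [add_sub_cancel] at k
  have := K1 k ha0 (by linarith) hP0 n3 n1 (by linarith)
  linarith

/-- Alternative for two homogeneous functionals. -/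
theorem gordan {ι : Type*} {f g : ι → ℝ}
    (hc : ∀ h : ι, ∀ s : ℝ, ∃ l, f l = s * f h ∧ g l = s * g h)
    (hn : ∀ h, 0 < f h → 0 < g h → False) :
    (∀ h, f h = 0) ∨ ∃ θ : ℝ, 0 ≤ θ ∧ ∀ c : ℝ, ∃ h, f h = c ∧ g h = -θ * c := by
  by_cases h0 : ∀ h, f h = 0
  · exact Or.inl h0
  push Not at h0
  obtain ⟨k, hk⟩ := h0
  obtain ⟨l, l1, -⟩ := hc k (1 / f k)
  have l2 : f l = 1 := by rw [l1]; field_simp
  refine Or.inr ⟨-g l, ?_, fun c => ?_⟩
  · by_contra hlt
    exact hn l (by rw [l2]; norm_num) (by linarith)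
  · obtain ⟨h, h1, h2⟩ := hc l c
    exact ⟨h, by rw [h1, l2]; ring, by rw [h2]; ring⟩

end Pool.Agent.Lib.MP_a38b16_an.S
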