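import Mathlib

/-!
Definitions for the coupled cubic Schroedinger system on an open set `Ω ⊆ ℝ^N`.
All integrals are over `Ω`.
-/

open MeasureTheory Filter Topology
open scoped ContDiff

namespace Pool.Agent.Lib.MP_a38b16_an.S

/-- Euclidean space `ℝ^N`. -/
abbrev E (N : ℕ) : Type := EuclideanSpace ℝ (Fin N)

/-- An element of the Sobolev space `H^1_0(Ω)`: a function `val` in `L^2(Ω)` together with its
gradient `grad` in `L^2(Ω)`, the pair being the `L^2` limit of `(φ n, ∇ φ n)` for smooth functions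
`φ n` with compact support inside `Ω` (the closure of `C_c^∞(Ω)` in the `H^1` norm). -/
structure H10 {N : ℕ} (Ω : Set (E N)) where
  val : E N → ℝ
  grad : E N → E N
  memLp_val : MemLp val 2 (volume.restrict Ω)
  memLp_grad : MemLp grad 2 (volume.restrict Ω)
  approx : ∃ φ : ℕ → E N → ℝ,
    (∀ n, ContDiff ℝ ∞ (φ n) ∧ HasCompactSupport (φ n) ∧ tsupport (φ n) ⊆ Ω) ∧
    Tendsto (fun n => eLpNorm (φ n - val) 2 (volume.restrict Ω)) atTop (𝓝 0) ∧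
    Tendsto (fun n => eLpNorm (gradient (φ n) - grad) 2 (volume.restrict Ω)) atTop (𝓝 0)

variable {N : ℕ} {Ω : Set (E N)}

/-- The bottom `λ_1(Ω)` of the Dirichlet spectrum of `-Δ` on `Ω`: the infimum of the Rayleigh
quotient `∫ |∇ w|^2 / ∫ w^2` over nonzero `w` in `H^1_0(Ω)`. -/
noncomputable def lam1 (Ω : Set (E N)) : ℝ :=
  sInf {r : ℝ | ∃ w : H10 Ω, ¬ (w.val =ᵐ[volume.restrict Ω] 0) ∧
    r = (∫ x in Ω, ‖w.grad x‖ ^ 2) / ∫ x in Ω, w.val x ^ 2}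

/-- The squared norm `∫ (|∇ w|^2 + l w^2)`. -/
noncomputable def nsq (l : ℝ) (w : H10 Ω) : ℝ := ∫ x in Ω, (‖w.grad x‖ ^ 2 + l * w.val x ^ 2)

/-- The energy functional `E_β`. -/
noncomputable def energy (l₁ l₂ μ₁ μ₂ β : ℝ) (u v : H10 Ω) : ℝ :=
  (nsq l₁ u + nsq l₂ v) / 2 -
    (1 / 4) * ∫ x in Ω,
      (μ₁ * u.val x ^ 4 + 2 * β * (u.val x ^ 2 * v.val x ^ 2) + μ₂ * v.val x ^ 4)

/-- Membership of `(u, v)` in the Nehari-type set `N_β`. -/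
def InNehari (l₁ l₂ μ₁ μ₂ β : ℝ) (u v : H10 Ω) : Prop :=
  ¬ (u.val =ᵐ[volume.restrict Ω] 0) ∧ ¬ (v.val =ᵐ[volume.restrict Ω] 0) ∧
    nsq l₁ u = ∫ x in Ω, (μ₁ * u.val x ^ 4 + β * (u.val x ^ 2 * v.val x ^ 2)) ∧
    nsq l₂ v = ∫ x in Ω, (μ₂ * v.val x ^ 4 + β * (u.val x ^ 2 * v.val x ^ 2))

/-- `(u, v)` is a weak solution of the system, i.e. a critical point of `E_β` on `H`. -/
def IsWeakSolution (l₁ l₂ μ₁ μ₂ β : ℝ) (u v : H10 Ω) : Prop :=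
  (∀ φ : H10 Ω, ∫ x in Ω, (inner ℝ (u.grad x) (φ.grad x) + l₁ * (u.val x * φ.val x)) =
    ∫ x in Ω, (μ₁ * u.val x ^ 3 + β * (u.val x * v.val x ^ 2)) * φ.val x) ∧
  (∀ ψ : H10 Ω, ∫ x in Ω, (inner ℝ (v.grad x) (ψ.grad x) + l₂ * (v.val x * ψ.val x)) =
    ∫ x in Ω, (μ₂ * v.val x ^ 3 + β * (v.val x * u.val x ^ 2)) * ψ.val x)

end Pool.Agent.Lib.MP_a38b16_an.S
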