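import Pool.Agent.Lib.MP_a38b16_an.SSob
import Pool.Agent.Lib.MP_a38b16_an.SAlg

/-! The quadratic and quartic functionals on `H^1_0(Ω)`. -/

open MeasureTheory Filter Topology Set
open scoped ContDiff ENNReal NNReal

namespace Pool.Agent.Lib.MP_a38b16_an.S

variable {N : ℕ} {Ω : Set (E N)}

/-- The bilinear form of `nsq`. -/
noncomputable def bil (l : ℝ) (a b : H10 Ω) : ℝ :=
  ∫ x in Ω, (inner ℝ (a.grad x) (b.grad x) + l * (a.val x * b.val x))

/-- The quartic form. -/
noncomputable def M4 (a b c d : H10 Ω) : ℝ := ∫ x in Ω, a.val x * b.val x * c.val x * d.val x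

/-- Linear combinations. -/
noncomputable def comb (s t : ℝ) (a b : H10 Ω) : H10 Ω := (a.isH.comb b.isH s t).toH

@[simp] theorem comb_val (s t : ℝ) (a b : H10 Ω) (x : E N) :
    (comb s t a b).val x = s * a.val x + t * b.val x := rfl

@[simp] theorem comb_grad (s t : ℝ) (a b : H10 Ω) (x : E N) :
    (comb s t a b).grad x = s • a.grad x + t • b.grad x := rfl

theorem int_bil (l : ℝ) (a b : H10 Ω) : Integrable
    (fun x => inner ℝ (a.grad x) (b.grad x) + l * (a.val x * b.val x)) (volume.restrict Ω) :=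
  (integrable_inner2 a.memLp_grad b.memLp_grad).add
    ((a.memLp_val.integrable_mul b.memLp_val).const_mul l)

theorem nsq_eq (l : ℝ) (w : H10 Ω) : nsq l w = bil l w w := by
  simp only [nsq, bil, real_inner_self_eq_norm_sq, sq]

theorem bil_comm (l : ℝ) (a b : H10 Ω) : bil l a b = bil l b a := by
  simp only [bil, real_inner_comm, mul_comm (a.val _)]

theorem bil_comb (l s t : ℝ) (u a b : H10 Ω) :
    bil l u (comb s t a b) = s * bil l u a + t * bil l u b := by
  simp only [bil]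
  rw [← integral_const_mul, ← integral_const_mul,
    ← integral_add ((int_bil l u a).const_mul s) ((int_bil l u b).const_mul t)]
  congr 1
  funext x
  simp only [comb_val, comb_grad, inner_add_right, inner_smul_right]
  ring

theorem nsq_comb (l s t : ℝ) (a b : H10 Ω) :
    nsq l (comb s t a b) = s ^ 2 * nsq l a + 2 * s * t * bil l a b + t ^ 2 * nsq l b := by
  rw [nsq_eq, nsq_eq, nsq_eq, bil_comb, bil_comm l _ a, bil_comm l _ b, bil_comb, bil_comb,
    bil_comm l b a]
  ring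

theorem M4_swap12 (a b c d : H10 Ω) : M4 a b c d = M4 b a c d := by
  simp only [M4]; congr 1; funext x; ring

theorem M4_swap23 (a b c d : H10 Ω) : M4 a b c d = M4 a c b d := by
  simp only [M4]; congr 1; funext x; ring

theorem M4_swap34 (a b c d : H10 Ω) : M4 a b c d = M4 a b d c := by
  simp only [M4]; congr 1; funext x; ring

theorem M4_swap (a b c d : H10 Ω) : M4 a b c d = M4 c d a b := by
  simp only [M4]; congr 1; funext x; ring

theorem M4_comb4 (hN : N ≤ 3) (s t : ℝ) (a b c d e : H10 Ω) :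
    M4 a b c (comb s t d e) = s * M4 a b c d + t * M4 a b c e := by
  simp only [M4]
  rw [← integral_const_mul, ← integral_const_mul,
    ← integral_add ((int_mul4 hN a b c d).const_mul s) ((int_mul4 hN a b c e).const_mul t)]
  congr 1
  funext x
  simp only [comb_val]
  ring

theorem M4_comb3 (hN : N ≤ 3) (s t : ℝ) (a b c d e : H10 Ω) :
    M4 a b (comb s t d e) c = s * M4 a b d c + t * M4 a b e c := by
  rw [M4_swap34, M4_comb4 hN, M4_swap34 a b c, M4_swap34 a b c]

theorem M4_comb2 (hN : N ≤ 3) (s t : ℝ) (a b c d e : H10 Ω) :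
    M4 a (comb s t d e) b c = s * M4 a d b c + t * M4 a e b c := by
  rw [M4_swap23, M4_comb3 hN, M4_swap23 a b, M4_swap23 a b]

theorem M4_comb1 (hN : N ≤ 3) (s t : ℝ) (a b c d e : H10 Ω) :
    M4 (comb s t d e) a b c = s * M4 d a b c + t * M4 e a b c := by
  rw [M4_swap12, M4_comb2 hN, M4_swap12 a, M4_swap12 a]

theorem nsq_deriv (l : ℝ) (u h : H10 Ω) :
    HasDerivAt (fun t => nsq l (comb 1 t u h)) (2 * bil l u h) 0 := by
  simp only [nsq_comb]
  have := (((hasDerivAt_id' (0:ℝ)).const_mul (2 * 1)).mul_const (bil l u h)).const_add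
    (1 ^ 2 * nsq l u) |>.add ((hasDerivAt_pow 2 (0:ℝ)).mul_const (nsq l h))
  refine this.congr_deriv ?_
  simp

theorem M4_deriv (hN : N ≤ 3) (u v h k : H10 Ω) :
    HasDerivAt (fun t => M4 (comb 1 t u h) (comb 1 t u h) (comb 1 t v k) (comb 1 t v k))
      (2 * M4 v v u h + 2 * M4 u u v k) 0 := by
  have e : ∀ t : ℝ, M4 (comb 1 t u h) (comb 1 t u h) (comb 1 t v k) (comb 1 t v k) =
      M4 u u v v + t * (2 * M4 v v u h + 2 * M4 u u v k) +
        t ^ 2 * (M4 h h v v + M4 u u k k + M4 u h v k + M4 u h k v + M4 h u v k + M4 h u k v +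
          t * (M4 u h k k + M4 h u k k + M4 h h v k + M4 h h k v) + t ^ 2 * M4 h h k k) := by
    intro t
    simp only [M4_comb1 hN, M4_comb2 hN, M4_comb3 hN, M4_comb4 hN]
    rw [M4_swap12 h u v v, M4_swap u h v v, M4_swap34 u u k v]
    ring
  simp only [e]
  have d1 : DifferentiableAt ℝ (fun t : ℝ => M4 h h v v + M4 u u k k + M4 u h v k + M4 u h k v +
      M4 h u v k + M4 h u k v + t * (M4 u h k k + M4 h u k k + M4 h h v k + M4 h h k v) +
      t ^ 2 * M4 h h k k) 0 := by fun_prop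
  have := (((hasDerivAt_id' (0:ℝ)).mul_const (2 * M4 v v u h + 2 * M4 u u v k)).const_add
    (M4 u u v v)).add ((hasDerivAt_pow 2 (0:ℝ)).mul d1.hasDerivAt)
  refine this.congr_deriv ?_
  simp

theorem M4_nonneg (u v : H10 Ω) : 0 ≤ M4 u u v v :=
  integral_nonneg (fun x => by
    have : u.val x * u.val x * v.val x * v.val x = (u.val x * v.val x) ^ 2 := by ring
    simp only [this]; positivity)

theorem M4_pos (hN : N ≤ 3) {u : H10 Ω} (h : ¬ (u.val =ᵐ[volume.restrict Ω] 0)) :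
    0 < M4 u u u u := by
  refine (M4_nonneg u u).lt_of_ne (fun h0 => h ?_)
  have := (integral_eq_zero_iff_of_nonneg (fun x => by
    have : u.val x * u.val x * u.val x * u.val x = (u.val x * u.val x) ^ 2 := by ring
    simp only [this]; positivity) (int_mul4 hN u u u u)).1 h0.symm
  filter_upwards [this] with x hx
  simpa using hx

theorem ne_of_M4_pos {u : H10 Ω} (h : 0 < M4 u u u u) : ¬ (u.val =ᵐ[volume.restrict Ω] 0) := by
  intro h0
  refine h.ne' (integral_eq_zero_of_ae ?_)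
  filter_upwards [h0] with x hx
  simp [hx]

theorem int_neh (hN : N ≤ 3) (m β : ℝ) (u v : H10 Ω) :
    ∫ x in Ω, (m * u.val x ^ 4 + β * (u.val x ^ 2 * v.val x ^ 2)) =
      m * M4 u u u u + β * M4 u u v v := by
  simp only [M4]
  rw [← integral_const_mul, ← integral_const_mul,
    ← integral_add ((int_mul4 hN u u u u).const_mul m) ((int_mul4 hN u u v v).const_mul β)]
  congr 1; funext x; ring

theorem int_neh' (hN : N ≤ 3) (m β : ℝ) (u v : H10 Ω) :
    ∫ x in Ω, (m * v.val x ^ 4 + β * (u.val x ^ 2 * v.val x ^ 2)) =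
      β * M4 u u v v + m * M4 v v v v := by
  rw [add_comm, M4_swap u u v v, ← int_neh hN]
  congr 1; funext x; ring

theorem energy_eq (hN : N ≤ 3) {l₁ l₂ μ₁ μ₂ β : ℝ} {u v : H10 Ω}
    (h : InNehari l₁ l₂ μ₁ μ₂ β u v) :
    energy l₁ l₂ μ₁ μ₂ β u v = (nsq l₁ u + nsq l₂ v) / 4 := by
  obtain ⟨-, -, h1, h2⟩ := h
  rw [int_neh hN] at h1
  rw [int_neh' hN] at h2
  have : ∫ x in Ω, (μ₁ * u.val x ^ 4 + 2 * β * (u.val x ^ 2 * v.val x ^ 2) + μ₂ * v.val x ^ 4) =
      μ₁ * M4 u u u u + 2 * β * M4 u u v v + μ₂ * M4 v v v v := by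
    simp only [M4]
    rw [← integral_const_mul, ← integral_const_mul, ← integral_const_mul,
      ← integral_add ((int_mul4 hN u u u u).const_mul _) ((int_mul4 hN u u v v).const_mul _),
      ← integral_add _ ((int_mul4 hN v v v v).const_mul _)]
    · congr 1; funext x; ring
    · exact ((int_mul4 hN u u u u).const_mul _).add ((int_mul4 hN u u v v).const_mul _)
  rw [energy, this]
  linarith

theorem minP_of_min (hN : N ≤ 3) {l₁ l₂ μ₁ μ₂ β : ℝ} (hμ₁ : 0 < μ₁) (hμ₂ : 0 < μ₂) {u v : H10 Ω}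
    (h : InNehari l₁ l₂ μ₁ μ₂ β u v)
    (hmin : ∀ u' v' : H10 Ω, InNehari l₁ l₂ μ₁ μ₂ β u' v' →
      energy l₁ l₂ μ₁ μ₂ β u v ≤ energy l₁ l₂ μ₁ μ₂ β u' v') (u' v' : H10 Ω) :
    MinP (nsq l₁ u + nsq l₂ v) (nsq l₁ u') (nsq l₂ v') (μ₁ * M4 u' u' u' u')
      (μ₂ * M4 v' v' v' v') (β * M4 u' u' v' v') := by
  intro hP hQ ξ η hξ hη e1 e2
  have s1 : √ξ ^ 2 = ξ := Real.sq_sqrt hξ.le
  have s2 : √η ^ 2 = η := Real.sq_sqrt hη.le
  have n1 : nsq l₁ (comb √ξ 0 u' u') = ξ * nsq l₁ u' := by rw [nsq_comb, s1]; ring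
  have n2 : nsq l₂ (comb √η 0 v' v') = η * nsq l₂ v' := by rw [nsq_comb, s2]; ring
  have m : ∀ (s t : ℝ) (a b : H10 Ω), M4 (comb s 0 a a) (comb s 0 a a) (comb t 0 b b)
      (comb t 0 b b) = s ^ 2 * t ^ 2 * M4 a a b b := by
    intro s t a b
    simp only [M4_comb1 hN, M4_comb2 hN, M4_comb3 hN, M4_comb4 hN]
    ring
  have hin : InNehari l₁ l₂ μ₁ μ₂ β (comb √ξ 0 u' u') (comb √η 0 v' v') := by
    refine ⟨ne_of_M4_pos ?_, ne_of_M4_pos ?_, ?_, ?_⟩
    · rw [m, s1]; exact mul_pos (by positivity) ((mul_pos_iff_of_pos_left hμ₁).1 hP)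
    · rw [m, s2]; exact mul_pos (by positivity) ((mul_pos_iff_of_pos_left hμ₂).1 hQ)
    · rw [int_neh hN, n1, m, m, s1, s2, ← e1]; ring
    · rw [int_neh' hN, n2, m, m, s1, s2, ← e2]; ring
  have := hmin _ _ hin
  rw [energy_eq hN h, energy_eq hN hin, n1, n2] at this
  linarith

theorem nsq_pos {l : ℝ} (hl : -lam1 Ω < l) {w : H10 Ω} (h : ¬ (w.val =ᵐ[volume.restrict Ω] 0)) :
    0 < nsq l w := by
  have i1 := (memLp_two_iff_integrable_sq w.memLp_val.1).1 w.memLp_val
  have i2 := (memLp_two_iff_integrable_sq_norm w.memLp_grad.1).1 w.memLp_grad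
  have p : 0 < ∫ x in Ω, w.val x ^ 2 := by
    refine (integral_nonneg (fun x => by positivity)).lt_of_ne (fun h0 => h ?_)
    have := (integral_eq_zero_iff_of_nonneg (fun x => by positivity) i1).1 h0.symm
    filter_upwards [this] with x hx
    simpa using hx
  have k : lam1 Ω ≤ (∫ x in Ω, ‖w.grad x‖ ^ 2) / ∫ x in Ω, w.val x ^ 2 := by
    refine csInf_le ⟨0, ?_⟩ ⟨w, h, rfl⟩
    rintro r ⟨z, -, rfl⟩
    exact div_nonneg (integral_nonneg fun x => by positivity)
      (integral_nonneg fun x => by positivity)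
  rw [le_div_iff₀ p] at k
  rw [nsq, integral_add i2 (i1.const_mul l), integral_const_mul]
  nlinarith

end Pool.Agent.Lib.MP_a38b16_an.S
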