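import Pool.Agent.Lib.MP_a38b16_an.SRip

/-! Minimizers on the Nehari-type set are weak solutions when `β > √(μ₁ μ₂)`. -/

open MeasureTheory Filter Topology Set
open scoped ContDiff ENNReal NNReal

namespace Pool.Agent.Lib.MP_a38b16_an.S

variable {N : ℕ} {Ω : Set (E N)}

/-- The data of a minimizer. -/
structure Hyp (l₁ l₂ μ₁ μ₂ β : ℝ) (u v : H10 Ω) : Prop where
  hN1 : 1 ≤ N
  hN : N ≤ 3
  m1 : 0 < μ₁
  m2 : 0 < μ₂
  b0 : 0 < β
  b1 : μ₁ * μ₂ < β ^ 2
  hl1 : -lam1 Ω < l₁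
  hl2 : -lam1 Ω < l₂
  hP : 0 < M4 u u u u
  hQ : 0 < M4 v v v v
  e1 : nsq l₁ u = μ₁ * M4 u u u u + β * M4 u u v v
  e2 : nsq l₂ v = β * M4 u u v v + μ₂ * M4 v v v v
  hmin : ∀ u' v' : H10 Ω, MinP (nsq l₁ u + nsq l₂ v) (nsq l₁ u') (nsq l₂ v')
    (μ₁ * M4 u' u' u' u') (μ₂ * M4 v' v' v' v') (β * M4 u' u' v' v')

variable {l₁ l₂ μ₁ μ₂ β : ℝ} {u v : H10 Ω}

theorem Hyp.swap (h : Hyp l₁ l₂ μ₁ μ₂ β u v) : Hyp l₂ l₁ μ₂ μ₁ β v u where
  hN1 := h.hN1
  hN := h.hN
  m1 := h.m2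
  m2 := h.m1
  b0 := h.b0
  b1 := by rw [mul_comm]; exact h.b1
  hl1 := h.hl2
  hl2 := h.hl1
  hP := h.hQ
  hQ := h.hP
  e1 := by rw [h.e2, M4_swap u u v v, add_comm]
  e2 := by rw [h.e1, M4_swap u u v v, add_comm]
  hmin := fun v' u' => by
    rw [add_comm, M4_swap v' v' u' u']
    exact (h.hmin u' v').swap

/-- The determinant of the constraint matrix. -/
noncomputable def det (μ₁ μ₂ β : ℝ) (u v : H10 Ω) : ℝ :=
  μ₁ * M4 u u u u * (μ₂ * M4 v v v v) - (β * M4 u u v v) ^ 2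

theorem det_swap : det μ₂ μ₁ β v u = det μ₁ μ₂ β u v := by
  simp only [det]; rw [M4_swap v v u u]; ring

theorem M4_deriv2 (hN : N ≤ 3) (u v k : H10 Ω) :
    HasDerivAt (fun t => M4 u u (comb 1 t v k) (comb 1 t v k)) (2 * M4 u u v k) 0 := by
  have e : ∀ t : ℝ, M4 u u (comb 1 t v k) (comb 1 t v k) =
      M4 u u v v + t * (2 * M4 u u v k) + t ^ 2 * M4 u u k k := by
    intro t
    simp only [M4_comb3 hN, M4_comb4 hN]
    rw [M4_swap34 u u k v]
    ring
  simp only [e]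
  have := (((hasDerivAt_id' (0:ℝ)).mul_const (2 * M4 u u v k)).const_add
    (M4 u u v v)).add ((hasDerivAt_pow 2 (0:ℝ)).mul_const (M4 u u k k))
  refine this.congr_deriv ?_
  simp

theorem comb_zero (v k : H10 Ω) : comb 1 0 v k = v := by
  obtain ⟨w, g, h1, h2, h3⟩ := v
  simp [comb, IsH.toH]

theorem Hyp.nondeg (h : Hyp l₁ l₂ μ₁ μ₂ β u v) (hd : det μ₁ μ₂ β u v ≠ 0) (k : H10 Ω) :
    bil l₂ v k = μ₂ * M4 v v v k + β * M4 u u v k := by
  have := S.nondeg (hasDerivAt_const (0:ℝ) (nsq l₁ u)) (nsq_deriv l₂ v k)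
    (hasDerivAt_const (0:ℝ) (μ₁ * M4 u u u u)) ((M4_deriv h.hN v v k k).const_mul μ₂)
    ((M4_deriv2 h.hN u v k).const_mul β)
    (by simp only [comb_zero]; exact h.e1)
    (by simp only [comb_zero]; exact h.e2)
    (mul_pos h.m1 h.hP) (by simp only [comb_zero]; exact mul_pos h.m2 h.hQ)
    (by simp only [comb_zero]; exact hd)
    (fun t => by simp only [comb_zero]; exact h.hmin _ _)
  linarith

theorem Hyp.hR (h : Hyp l₁ l₂ μ₁ μ₂ β u v) (hd : det μ₁ μ₂ β u v = 0) : 0 < M4 u u v v := by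
  refine (M4_nonneg u v).lt_of_ne (fun h0 => ?_)
  have := mul_pos (mul_pos h.m1 h.hP) (mul_pos h.m2 h.hQ)
  rw [det, ← h0] at hd
  linarith

/-- First functional of the alternative. -/
noncomputable def fF (u v k : H10 Ω) : ℝ := M4 u u v k / M4 u u v v - M4 v v v k / M4 v v v v

/-- Second functional of the alternative. -/
noncomputable def gF (l : ℝ) (u v k : H10 Ω) : ℝ := M4 u u v k / M4 u u v v - bil l v k / nsq l v

theorem Hyp.first (h : Hyp l₁ l₂ μ₁ μ₂ β u v) (hd : det μ₁ μ₂ β u v = 0) (k : H10 Ω)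
    (hf : 0 < fF u v k) (hg : 0 < gF l₂ u v k) : False := by
  have hR := h.hR hd
  have b0 := h.b0.ne'
  have m2 := h.m2.ne'
  refine S.first (a := nsq l₁ u) (P := μ₁ * M4 u u u u) (nsq_deriv l₂ v k)
    ((M4_deriv h.hN v v k k).const_mul μ₂) ((M4_deriv2 h.hN u v k).const_mul β)
    (by simp only [comb_zero]; exact h.e1)
    (by simp only [comb_zero]; exact h.e2)
    (mul_pos h.m1 h.hP) (by simp only [comb_zero]; exact mul_pos h.m2 h.hQ)
    (by simp only [comb_zero]; exact mul_pos h.b0 hR)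
    (by simp only [comb_zero]; exact hd) (fun t δ hδ => ?_) ?_ ?_
  · obtain ⟨z, z1, z2, z3⟩ := ripple h.hN1 h.hN (ne_of_M4_pos h.hP) l₂ u (comb 1 t v k) hδ
    refine ⟨_, _, z2.const_mul μ₂, z3.const_mul β, fun n => ?_⟩
    rw [comb_zero, ← z1 n]
    exact h.hmin _ _
  · simp only [comb_zero]
    rw [mul_div_mul_left _ _ b0, mul_div_mul_left _ _ m2]
    have e : 2 * (2 * M4 u u v k / M4 u u v v) - (2 * M4 v v v k + 2 * M4 v v v k) / M4 v v v v =
      4 * fF u v k := by simp only [fF]; ring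
    rw [e]; linarith
  · simp only [comb_zero]
    rw [mul_div_mul_left _ _ b0]
    have e : 2 * M4 u u v k / M4 u u v v - 2 * bil l₂ v k / nsq l₂ v = 2 * gF l₂ u v k := by
      simp only [gF]; ring
    rw [e]; linarith

theorem Hyp.second (h : Hyp l₁ l₂ μ₁ μ₂ β u v) (hd : det μ₁ μ₂ β u v = 0) (j k : H10 Ω)
    {θ θ' : ℝ} (hθ : 0 ≤ θ) (hθ' : 0 ≤ θ')
    (f1 : fF v u j = -(1 + θ)) (g1 : gF l₁ v u j = -θ' * -(1 + θ))
    (f2 : fF u v k = -(1 + θ')) (g2 : gF l₂ u v k = -θ * -(1 + θ')) : False := by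
  have hR := h.hR hd
  have b0 := h.b0.ne'
  have m1 := h.m1.ne'
  have m2 := h.m2.ne'
  simp only [fF, gF, M4_swap v v u u] at f1 g1 f2 g2
  have p := mul_nonneg hθ hθ'
  refine S.second (nsq_deriv l₁ u j) (nsq_deriv l₂ v k) ((M4_deriv h.hN u u j j).const_mul μ₁)
    ((M4_deriv h.hN v v k k).const_mul μ₂) ((M4_deriv h.hN u v j k).const_mul β)
    (by simp only [comb_zero]; exact h.e1)
    (by simp only [comb_zero]; exact h.e2)
    (by simp only [comb_zero]; exact mul_pos h.m1 h.hP)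
    (by simp only [comb_zero]; exact mul_pos h.m2 h.hQ)
    (by simp only [comb_zero]; exact mul_pos h.b0 hR)
    (by simp only [comb_zero]; exact hd) (fun t => by simp only [comb_zero]; exact h.hmin _ _)
    ?_ ?_ ?_
  all_goals
    simp only [comb_zero, mul_div_mul_left _ _ b0, mul_div_mul_left _ _ m1,
      mul_div_mul_left _ _ m2, add_div, mul_div_assoc]
    linarith

theorem locInt3 (hN : N ≤ 3) (a b c : H10 Ω) :
    LocallyIntegrable (fun x => a.val x * b.val x * c.val x) (volume.restrict Ω) := by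
  refine ((locallyIntegrable_const (1:ℝ)).add ((((a.int_four hN).add (b.int_four hN)).add
    (c.int_four hN)).locallyIntegrable)).mono
    ((a.memLp_val.1.mul b.memLp_val.1).mul c.memLp_val.1) (Eventually.of_forall fun x => ?_)
  simp only [Pi.add_apply, Real.norm_eq_abs]
  generalize a.val x = p
  generalize b.val x = q
  generalize c.val x = r
  refine le_trans ?_ (le_abs_self _)
  rw [abs_le]
  constructor
  · nlinarith [sq_nonneg (p * q + r), sq_nonneg (p ^ 2 - q ^ 2), sq_nonneg (r ^ 2 - 1),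
      sq_nonneg (p ^ 2), sq_nonneg (q ^ 2), sq_nonneg (r ^ 2)]
  · nlinarith [sq_nonneg (p * q - r), sq_nonneg (p ^ 2 - q ^ 2), sq_nonneg (r ^ 2 - 1),
      sq_nonneg (p ^ 2), sq_nonneg (q ^ 2), sq_nonneg (r ^ 2)]

theorem Hyp.flat (h : Hyp l₁ l₂ μ₁ μ₂ β u v) (hΩ : IsOpen Ω) (hd : det μ₁ μ₂ β u v = 0)
    (hf : ∀ k, fF u v k = 0) : False := by
  have hN := h.hN
  have hR := h.hR hd
  have hP := h.hP
  have hQ := h.hQ
  have key : (fun x => M4 v v v v * (u.val x * u.val x * v.val x) -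
      M4 u u v v * (v.val x * v.val x * v.val x)) =ᵐ[volume.restrict Ω] 0 := by
    refine fund hΩ (((locInt3 hN u u v).smul (M4 v v v v)).sub
      ((locInt3 hN v v v).smul (M4 u u v v))) (fun ψ t => ?_)
    have e := hf t.isH.toH
    rw [fF, sub_eq_zero, div_eq_div_iff hR.ne' hQ.ne'] at e
    have e2 : M4 v v v v * M4 u u v t.isH.toH - M4 u u v v * M4 v v v t.isH.toH = 0 := by linarith
    rw [← e2]
    generalize M4 v v v v = Q
    generalize M4 u u v v = R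
    simp only [M4]
    rw [← integral_const_mul, ← integral_const_mul,
      ← integral_sub ((int_mul4 hN _ _ _ _).const_mul _) ((int_mul4 hN _ _ _ _).const_mul _)]
    congr 1; funext x
    simp only [IsH.toH]; ring
  set κ := M4 u u v v / M4 v v v v with hκ
  have κ0 : 0 < κ := div_pos hR hQ
  have k2 : ∀ᵐ x ∂(volume.restrict Ω), v.val x = 0 ∨ u.val x ^ 2 = κ * v.val x ^ 2 := by
    filter_upwards [key] with x hx
    refine or_iff_not_imp_left.2 (fun h0 => ?_)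
    rw [hκ, div_mul_eq_mul_div, eq_div_iff hQ.ne']
    refine mul_right_cancel₀ h0 ?_
    simp only [Pi.zero_apply] at hx
    linarith
  obtain ⟨z, hz⟩ := exists_part hΩ u v (c := √κ) (by
    filter_upwards [k2] with x hx
    refine hx.imp id (fun h1 => ?_)
    rw [← Real.sqrt_sq_eq_abs, h1, Real.sqrt_mul κ0.le, Real.sqrt_sq_eq_abs])
  by_cases hz0 : z.val =ᵐ[volume.restrict Ω] 0
  · have e : M4 u u u u = κ * M4 u u v v := by
      simp only [M4]
      rw [← integral_const_mul]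
      refine integral_congr_ae ?_
      filter_upwards [hz, hz0, k2] with x h1 h2 h3
      rcases h3 with h3 | h3
      · have : u.val x = 0 := by rw [← h1.1 h3]; exact h2
        simp [this]
      · calc u.val x * u.val x * u.val x * u.val x = u.val x * u.val x * u.val x ^ 2 := by ring
          _ = _ := by rw [h3]; ring
    have e2 : M4 u u u u * M4 v v v v = M4 u u v v ^ 2 := by
      rw [e, hκ]; field_simp
    have e3 : (β ^ 2 - μ₁ * μ₂) * M4 u u v v ^ 2 = 0 := by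
      rw [det] at hd
      linear_combination -hd + μ₁ * μ₂ * e2
    have := mul_pos (sub_pos.2 h.b1) (pow_pos hR 2)
    linarith
  · have z1 : M4 v v u z = 0 := by
      refine integral_eq_zero_of_ae ?_
      filter_upwards [hz] with x hx
      by_cases h0 : v.val x = 0
      · simp [h0]
      · simp [hx.2.1 h0]
    have z2 : M4 u u u z = M4 z z z z := by
      refine integral_congr_ae ?_
      filter_upwards [hz] with x hx
      by_cases h0 : v.val x = 0
      · simp [hx.1 h0]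
      · simp [hx.2.1 h0]
    have z3 : bil l₁ u z = nsq l₁ z := by
      refine integral_congr_ae ?_
      filter_upwards [hz] with x hx
      rw [hx.2.2]
      by_cases h0 : v.val x = 0
      · rw [hx.1 h0]; ring
      · rw [hx.2.1 h0]; ring
    have p1 := div_pos (M4_pos hN hz0) hP
    have p2 := div_pos (nsq_pos h.hl1 hz0) (nsq_pos h.hl1 (ne_of_M4_pos hP))
    refine h.swap.first (det_swap.trans hd) (comb (-1) 0 z z) ?_ ?_
    · simp only [fF, M4_comb4 hN, z1, z2]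
      simpa [neg_div] using p1
    · simp only [gF, M4_comb4 hN, bil_comb, z1, z3]
      simpa [neg_div] using p2

theorem fg_smul (hN : N ≤ 3) (l : ℝ) (u v k : H10 Ω) (s : ℝ) :
    ∃ j, fF u v j = s * fF u v k ∧ gF l u v j = s * gF l u v k :=
  ⟨comb s 0 k k, by simp only [fF, M4_comb4 hN]; ring,
    by simp only [gF, M4_comb4 hN, bil_comb]; ring⟩

theorem Hyp.det_ne (h : Hyp l₁ l₂ μ₁ μ₂ β u v) (hΩ : IsOpen Ω) : det μ₁ μ₂ β u v ≠ 0 := by
  intro hd
  have hd' : det μ₂ μ₁ β v u = 0 := det_swap.trans hd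
  rcases gordan (fg_smul h.hN l₂ u v) (h.first hd) with h2 | ⟨θ, hθ, h2⟩
  · exact h.flat hΩ hd h2
  rcases gordan (fg_smul h.hN l₁ v u) (h.swap.first hd') with h1 | ⟨θ', hθ', h1⟩
  · exact h.swap.flat hΩ hd' h1
  obtain ⟨j, j1, j2⟩ := h1 (-(1 + θ))
  obtain ⟨k, k1, k2⟩ := h2 (-(1 + θ'))
  exact h.second hd j k hθ hθ' j1 j2 k1 k2

theorem int_rhs (hN : N ≤ 3) (m β : ℝ) (u v k : H10 Ω) :
    ∫ x in Ω, (m * v.val x ^ 3 + β * (v.val x * u.val x ^ 2)) * k.val x =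
      m * M4 v v v k + β * M4 u u v k := by
  simp only [M4]
  rw [← integral_const_mul, ← integral_const_mul,
    ← integral_add ((int_mul4 hN _ _ _ _).const_mul m) ((int_mul4 hN _ _ _ _).const_mul β)]
  congr 1; funext x; ring

theorem main (hN1 : 1 ≤ N) (hN : N ≤ 3) (hΩ : IsOpen Ω) (hl1 : -lam1 Ω < l₁) (hl2 : -lam1 Ω < l₂)
    (hμ₁ : 0 < μ₁) (hμ₂ : 0 < μ₂) (hβ : √(μ₁ * μ₂) < β) (h : InNehari l₁ l₂ μ₁ μ₂ β u v)
    (hmin : ∀ u' v' : H10 Ω, InNehari l₁ l₂ μ₁ μ₂ β u' v' →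
      energy l₁ l₂ μ₁ μ₂ β u v ≤ energy l₁ l₂ μ₁ μ₂ β u' v') :
    IsWeakSolution l₁ l₂ μ₁ μ₂ β u v := by
  have b0 : 0 < β := (Real.sqrt_nonneg _).trans_lt hβ
  have H : Hyp l₁ l₂ μ₁ μ₂ β u v :=
    { hN1 := hN1, hN := hN, m1 := hμ₁, m2 := hμ₂, b0 := b0
      b1 := (Real.sqrt_lt' b0).1 hβ
      hl1 := hl1, hl2 := hl2
      hP := M4_pos hN h.1, hQ := M4_pos hN h.2.1
      e1 := by rw [h.2.2.1, int_neh hN]
      e2 := by rw [h.2.2.2, int_neh' hN]
      hmin := minP_of_min hN hμ₁ hμ₂ h hmin }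
  have hd := H.det_ne hΩ
  refine ⟨fun φ => ?_, fun ψ => ?_⟩
  · rw [int_rhs hN]
    exact H.swap.nondeg (by rw [det_swap]; exact hd) φ
  · rw [int_rhs hN]
    exact H.nondeg hd ψ

end Pool.Agent.Lib.MP_a38b16_an.S
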