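import Pool.Agent.Lib.MP_a38b16_an.SFun

/-! Oscillating perturbations: the `H^1` norm can be raised without moving the `L^4` data. -/

open MeasureTheory Filter Topology Set
open scoped ContDiff ENNReal NNReal

namespace Pool.Agent.Lib.MP_a38b16_an.S

variable {N : ℕ} {Ω : Set (E N)}

theorem exists_test {w : H10 Ω} (h : ¬ (w.val =ᵐ[volume.restrict Ω] 0)) :
    ∃ φ, Test Ω φ ∧ 0 < ∫ x in Ω, φ x ^ 2 := by
  obtain ⟨φ, a3, -, -, a6⟩ := w.isH.exists_ae
  by_contra hc
  push Not at hc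
  have : ∀ n, φ n =ᵐ[volume.restrict Ω] 0 := by
    intro n
    have i1 := (memLp_two_iff_integrable_sq ((a3 n).memLp 2).1).1 ((a3 n).memLp 2)
    have := (integral_eq_zero_iff_of_nonneg (fun x => by positivity) i1).1
      (le_antisymm (hc _ (a3 n)) (integral_nonneg fun x => by positivity))
    filter_upwards [this] with x hx
    simpa using hx
  refine h ?_
  filter_upwards [a6, ae_all_iff.2 this] with x h1 h2
  simp only [h2, Pi.zero_apply] at h1
  exact tendsto_nhds_unique h1 tendsto_const_nhds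

theorem Test.mul {φ ψ : E N → ℝ} (h : Test Ω φ) (hψ : ContDiff ℝ ∞ ψ) :
    Test Ω (fun x => φ x * ψ x) :=
  ⟨h.1.mul hψ, h.2.1.mul_right, tsupport_mul_subset_left.trans h.2.2⟩

theorem exists_osc (hN : 1 ≤ N) {φ : E N → ℝ} (t : Test Ω φ) (hφ : 0 < ∫ x in Ω, φ x ^ 2)
    (l K : ℝ) : ∃ y : H10 Ω, (∀ x, |y.val x| ≤ |φ x|) ∧ K ≤ nsq l y := by
  set e : E N := EuclideanSpace.single ⟨0, hN⟩ 1 with he
  have ne : ‖e‖ = 1 := by simp [he]
  obtain ⟨n, hn⟩ : ∃ n : ℝ, 2 * K ≤ (n ^ 2 + l) * ∫ x in Ω, φ x ^ 2 := by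
    refine ⟨√(|2 * K / (∫ x in Ω, φ x ^ 2) - l|), ?_⟩
    rw [Real.sq_sqrt (abs_nonneg _), ← div_le_iff₀ hφ]
    linarith [le_abs_self (2 * K / (∫ x in Ω, φ x ^ 2) - l)]
  have cL : ContDiff ℝ ∞ (fun x : E N => inner ℝ e x) := contDiff_const.inner ℝ contDiff_id
  have dL : ∀ x, DifferentiableAt ℝ (fun x : E N => inner ℝ e x) x :=
    fun x => cL.differentiable (by simp) x
  have gL : ∀ x, gradient (fun x : E N => inner ℝ e x) x = e := fun x =>
    (hasGradientAt_iff_hasFDerivAt.2 (InnerProductSpace.toDual ℝ (E N) e).hasFDerivAt).gradient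
  have cc : ContDiff ℝ ∞ (fun x : E N => Real.cos (n * inner ℝ e x)) :=
    (contDiff_const.mul cL).cos
  have cs : ContDiff ℝ ∞ (fun x : E N => Real.sin (n * inner ℝ e x)) :=
    (contDiff_const.mul cL).sin
  have gc : ∀ x, gradient (fun x : E N => Real.cos (n * inner ℝ e x)) x =
      (-Real.sin (n * inner ℝ e x) * n) • e := fun x => by
    rw [grad_comp (θ := fun s => Real.cos (n * s)) (dL x)
      (((hasDerivAt_id' _).const_mul n).cos), gL]
    simp
  have gs : ∀ x, gradient (fun x : E N => Real.sin (n * inner ℝ e x)) x =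
      (Real.cos (n * inner ℝ e x) * n) • e := fun x => by
    rw [grad_comp (θ := fun s => Real.sin (n * s)) (dL x)
      (((hasDerivAt_id' _).const_mul n).sin), gL]
    simp
  have key : 2 * K ≤ nsq l (t.mul cc).isH.toH + nsq l (t.mul cs).isH.toH := by
    refine hn.trans ?_
    rw [nsq_eq, nsq_eq, bil, bil, ← integral_add (int_bil l _ _) (int_bil l _ _),
      ← integral_const_mul]
    refine integral_mono (((memLp_two_iff_integrable_sq (t.memLp 2).1).1
      (t.memLp 2)).const_mul _) ((int_bil l _ _).add (int_bil l _ _)) (fun x => ?_)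
    simp only [IsH.toH]
    rw [grad_mul (t.diff x) (cc.differentiable (by simp) x),
      grad_mul (t.diff x) (cs.differentiable (by simp) x), gc, gs]
    simp only [inner_add_left, inner_add_right, inner_smul_left, inner_smul_right,
      real_inner_self_eq_norm_sq, ne, conj_trivial, real_inner_comm e (gradient φ x)]
    have h1 := Real.sin_sq_add_cos_sq (n * inner ℝ e x)
    generalize Real.sin (n * inner ℝ e x) = s at *
    generalize Real.cos (n * inner ℝ e x) = c at *
    have h2 : ∀ A : ℝ, A = A * (s ^ 2 + c ^ 2) := fun A => by rw [h1, mul_one]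
    rw [h2 ((n ^ 2 + l) * φ x ^ 2)]
    nlinarith [sq_nonneg (c * ‖gradient φ x‖), sq_nonneg (s * ‖gradient φ x‖)]
  by_cases hc : K ≤ nsq l (t.mul cc).isH.toH
  · refine ⟨_, fun x => ?_, hc⟩
    simp only [IsH.toH, abs_mul]
    exact mul_le_of_le_one_right (abs_nonneg _) (Real.abs_cos_le_one _)
  · refine ⟨(t.mul cs).isH.toH, fun x => ?_, by linarith⟩
    simp only [IsH.toH, abs_mul]
    exact mul_le_of_le_one_right (abs_nonneg _) (Real.abs_sin_le_one _)

theorem exists_alpha {c B δ ε : ℝ} (hε : 0 < ε) (hδ : 0 ≤ δ) (hB : δ ≤ ε ^ 2 * B) :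
    ∃ α : ℝ, |α| ≤ ε ∧ 2 * α * c + α ^ 2 * B = δ := by
  have key : ∀ c : ℝ, 0 ≤ c → ∃ α : ℝ, |α| ≤ ε ∧ 2 * α * c + α ^ 2 * B = δ := by
    intro c hc
    have := intermediate_value_Icc hε.le (f := fun α => 2 * α * c + α ^ 2 * B) (by fun_prop)
    obtain ⟨α, h1, h2⟩ := this (a := δ) ⟨by simpa using hδ, by
      have : 0 ≤ 2 * ε * c := by positivity
      linarith⟩
    exact ⟨α, by rw [abs_of_nonneg h1.1]; exact h1.2, h2⟩
  rcases le_total 0 c with hc | hc
  · exact key c hc
  · obtain ⟨α, h1, h2⟩ := key (-c) (by linarith)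
    exact ⟨-α, by rwa [abs_neg], by linarith⟩

theorem ripple (hN1 : 1 ≤ N) (hN : N ≤ 3) {w : H10 Ω} (h : ¬ (w.val =ᵐ[volume.restrict Ω] 0))
    (l : ℝ) (u v : H10 Ω) {δ : ℝ} (hδ : 0 ≤ δ) :
    ∃ z : ℕ → H10 Ω, (∀ n, nsq l (z n) = nsq l v + δ) ∧
      Tendsto (fun n => M4 (z n) (z n) (z n) (z n)) atTop (𝓝 (M4 v v v v)) ∧
      Tendsto (fun n => M4 u u (z n) (z n)) atTop (𝓝 (M4 u u v v)) := by
  obtain ⟨φ, t, hφ⟩ := exists_test h
  have : ∀ n : ℕ, ∃ z : H10 Ω, nsq l z = nsq l v + δ ∧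
      ∀ x, |z.val x - v.val x| ≤ 1 / ((n:ℝ) + 1) * |φ x| := by
    intro n
    have hε : 0 < 1 / ((n:ℝ) + 1) := by positivity
    obtain ⟨y, h1, h2⟩ := exists_osc hN1 t hφ l (δ / (1 / ((n:ℝ) + 1)) ^ 2)
    rw [div_le_iff₀' (by positivity)] at h2
    obtain ⟨α, h3, h4⟩ := exists_alpha (c := bil l v y) hε hδ h2
    refine ⟨comb 1 α v y, by rw [nsq_comb, ← h4]; ring, fun x => ?_⟩
    simp only [comb_val, one_mul, add_sub_cancel_left, abs_mul]
    exact mul_le_mul h3 (h1 x) (abs_nonneg _) hε.le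
  choose z h1 h2 using this
  set G : H10 Ω := comb 1 1 v.isH.abs.toH t.isH.abs.toH with hG
  have hGv : ∀ x, G.val x = |v.val x| + |φ x| := fun x => by simp [hG, IsH.toH]
  have hb : ∀ n x, |(z n).val x| ≤ G.val x := by
    intro n x
    have k1 : 1 / ((n:ℝ) + 1) ≤ 1 := by
      rw [div_le_one (by positivity)]; linarith [Nat.cast_nonneg (α := ℝ) n]
    have k2 := (h2 n x).trans (mul_le_of_le_one_left (abs_nonneg _) k1)
    rw [hGv]
    linarith [abs_sub_abs_le_abs_sub ((z n).val x) (v.val x)]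
  have hl : ∀ x, Tendsto (fun n => (z n).val x) atTop (𝓝 (v.val x)) := by
    intro x
    rw [tendsto_iff_norm_sub_tendsto_zero]
    have := (tendsto_one_div_add_atTop_nhds_zero_nat (𝕜 := ℝ)).mul_const (|φ x|)
    rw [zero_mul] at this
    exact squeeze_zero (fun _ => norm_nonneg _) (fun n => h2 n x) this
  refine ⟨z, h1, ?_, ?_⟩
  · refine tendsto_integral_of_dominated_convergence _ (fun n => (int_mul4 hN _ _ _ _).1)
      (int_mul4 hN G G G G) (fun n => Eventually.of_forall fun x => ?_)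
      (Eventually.of_forall fun x => (((hl x).mul (hl x)).mul (hl x)).mul (hl x))
    have := hb n x
    have := (abs_nonneg _).trans this
    simp only [Real.norm_eq_abs, abs_mul]
    gcongr
  · refine tendsto_integral_of_dominated_convergence _ (fun n => (int_mul4 hN _ _ _ _).1)
      (int_mul4 hN u u G G) (fun n => Eventually.of_forall fun x => ?_)
      (Eventually.of_forall fun x => ((tendsto_const_nhds.mul (hl x)).mul (hl x)))
    have := hb n x
    have := (abs_nonneg _).trans this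
    rw [Real.norm_eq_abs, abs_mul, abs_mul, abs_mul_self]
    have := mul_self_nonneg (u.val x)
    gcongr

end Pool.Agent.Lib.MP_a38b16_an.S
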