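import Pool.Agent.Lib.MP_a38b16_an.SAbs

/-! The Sobolev embedding of `H^1_0(Ω)` into `L^4(Ω)` for `N ≤ 3`. -/

open MeasureTheory Filter Topology Set
open scoped ContDiff ENNReal NNReal

namespace Pool.Agent.Lib.MP_a38b16_an.S

variable {N : ℕ} {Ω : Set (E N)}

theorem eLpNorm_prod_mul {X Y : Type*} [MeasurableSpace X] [MeasurableSpace Y] {μ : Measure X}
    {ν : Measure Y} [SFinite μ] [SFinite ν] {f : X → ℝ} {g : Y → ℝ} (hf : AEMeasurable f μ)
    (hg : AEMeasurable g ν) {p : ℝ≥0∞} (h0 : p ≠ 0) (h1 : p ≠ ⊤) :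
    eLpNorm (fun z : X × Y => f z.1 * g z.2) p (μ.prod ν) = eLpNorm f p μ * eLpNorm g p ν := by
  have hp : 0 ≤ p.toReal := ENNReal.toReal_nonneg
  simp only [eLpNorm_eq_lintegral_rpow_enorm_toReal h0 h1, enorm_mul,
    ENNReal.mul_rpow_of_nonneg _ _ hp]
  rw [lintegral_prod_mul (f := fun x => ‖f x‖ₑ ^ p.toReal) (g := fun y => ‖g y‖ₑ ^ p.toReal)
    (hf.enorm.pow_const _) (hg.enorm.pow_const _), ENNReal.mul_rpow_of_nonneg _ _ (by positivity)]

theorem sobolev_test (hN : N ≤ 3) : ∃ C : ℝ≥0∞, C ≠ ⊤ ∧ ∀ φ : E N → ℝ, Test univ φ →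
    eLpNorm φ 6 volume ≤ C * (eLpNorm φ 2 volume + eLpNorm (gradient φ) 2 volume) := by
  let χ : ContDiffBump (0 : E (3 - N)) := default
  have tχ : Test univ (χ : E (3 - N) → ℝ) := ⟨χ.contDiff, χ.hasCompactSupport, subset_univ _⟩
  set μ : Measure (E N × E (3 - N)) := (volume : Measure (E N)).prod volume with hμ
  have hrank : Module.finrank ℝ (E N × E (3 - N)) = 3 := by
    simp [Module.finrank_prod]; omega
  set K : ℝ≥0 := SNormLESNormFDerivOfEqConst ℝ μ (2 : ℝ≥0) with hK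
  set c6 := eLpNorm (χ : E (3 - N) → ℝ) 6 volume with hc6
  set c2 := eLpNorm (χ : E (3 - N) → ℝ) 2 volume with hc2
  set d2 := eLpNorm (fun y => ‖gradient (χ : E (3 - N) → ℝ) y‖) 2 volume with hd2
  have f6 : c6 ≠ ⊤ := (tχ.cont.memLp_of_hasCompactSupport tχ.2.1).2.ne
  have f2 : c2 ≠ ⊤ := (tχ.cont.memLp_of_hasCompactSupport tχ.2.1).2.ne
  have g2 : d2 ≠ ⊤ := (tχ.cont_grad.memLp_of_hasCompactSupport tχ.supp_grad).norm.2.ne
  have n6 : c6 ≠ 0 := by
    intro h
    rw [hc6, eLpNorm_eq_zero_iff tχ.cont.aestronglyMeasurable (by norm_num),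
      tχ.cont.ae_eq_iff_eq volume continuous_zero] at h
    have := χ.one_of_mem_closedBall (x := 0) (Metric.mem_closedBall_self χ.rIn_pos.le)
    rw [h] at this
    simp at this
  refine ⟨c6⁻¹ * (K * (c2 + d2)), ENNReal.mul_ne_top (ENNReal.inv_ne_top.2 n6)
    (ENNReal.mul_ne_top ENNReal.coe_ne_top (ENNReal.add_ne_top.2 ⟨f2, g2⟩)), fun φ t => ?_⟩
  have hs : ContDiff ℝ 1 (fun z : E N × E (3 - N) => φ z.1 * χ z.2) :=
    ((t.1.of_le (by simp)).comp contDiff_fst).mul ((tχ.1.of_le (by simp)).comp contDiff_snd)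
  have hc : HasCompactSupport (fun z : E N × E (3 - N) => φ z.1 * χ z.2) := by
    refine HasCompactSupport.intro (t.2.1.isCompact.prod tχ.2.1.isCompact) (fun z hz => ?_)
    rw [mem_prod, not_and_or] at hz
    rcases hz with hz | hz
    · simp [image_eq_zero_of_notMem_tsupport hz]
    · simp [image_eq_zero_of_notMem_tsupport hz]
  have key := eLpNorm_le_eLpNorm_fderiv_of_eq μ hs hc (p := 2) (p' := 6) (by norm_num)
    (by rw [hrank]; norm_num) (by rw [hrank]; norm_num)
  rw [← hK] at key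
  have e6 : ((6 : ℝ≥0) : ℝ≥0∞) = 6 := rfl
  have e2 : ((2 : ℝ≥0) : ℝ≥0∞) = 2 := rfl
  rw [e6, e2, hμ, eLpNorm_prod_mul t.cont.aemeasurable tχ.cont.aemeasurable (by norm_num)
    (by norm_num), ← hc6] at key
  have m1 := t.cont_grad.norm
  have m2 := tχ.cont_grad.norm
  have hb : eLpNorm (fderiv ℝ (fun z : E N × E (3 - N) => φ z.1 * χ z.2)) 2
      ((volume : Measure (E N)).prod volume) ≤
      eLpNorm (gradient φ) 2 volume * c2 + eLpNorm φ 2 volume * d2 := by
    rw [← eLpNorm_norm (gradient φ), ← eLpNorm_norm φ, hc2, ← eLpNorm_norm (χ : E (3 - N) → ℝ),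
      ← eLpNorm_prod_mul m1.aemeasurable tχ.cont.norm.aemeasurable (by norm_num) (by norm_num),
      hd2, ← eLpNorm_prod_mul t.cont.norm.aemeasurable m2.aemeasurable (by norm_num)
      (by norm_num)]
    refine le_trans (eLpNorm_mono_real (fun z => ?_)) (eLpNorm_add_le
      (((m1.comp continuous_fst).mul (tχ.cont.norm.comp continuous_snd)).aestronglyMeasurable)
      (((t.cont.norm.comp continuous_fst).mul (m2.comp continuous_snd)).aestronglyMeasurable)
      (by norm_num))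
    have d1 := (t.diff z.1).hasFDerivAt.comp z (hasFDerivAt_fst (𝕜 := ℝ) (p := z))
    have d2 := (tχ.diff z.2).hasFDerivAt.comp z (hasFDerivAt_snd (𝕜 := ℝ) (p := z))
    have d3 := (d1.mul d2).fderiv
    rw [show (fun z : E N × E (3 - N) => φ z.1 * χ z.2) = (φ ∘ Prod.fst) * (χ ∘ Prod.snd) from rfl,
      d3]
    simp only [Pi.add_apply, Function.comp_apply, norm_grad]
    refine (norm_add_le _ _).trans ?_
    rw [norm_smul, norm_smul, add_comm, mul_comm]
    refine add_le_add (mul_le_mul_of_nonneg_right ?_ (norm_nonneg _))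
      (mul_le_mul_of_nonneg_left ?_ (norm_nonneg _))
    · exact (ContinuousLinearMap.opNorm_comp_le _ _).trans
        (mul_le_of_le_one_right (norm_nonneg _) (ContinuousLinearMap.norm_fst_le _ _ _))
    · exact (ContinuousLinearMap.opNorm_comp_le _ _).trans
        (mul_le_of_le_one_right (norm_nonneg _) (ContinuousLinearMap.norm_snd_le _ _ _))
  rw [mul_assoc, ← ENNReal.mul_le_iff_le_inv n6 f6, mul_comm c6]
  refine key.trans ?_
  rw [mul_assoc]
  refine mul_le_mul_right (hb.trans ?_) _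
  rw [add_mul, mul_comm c2, mul_comm d2]
  exact add_le_add (mul_le_mul_left le_add_self _) (mul_le_mul_left le_self_add _)

theorem IsH.memLp_six (hN : N ≤ 3) {w : E N → ℝ} {g : E N → E N} (h : IsH Ω w g) :
    MemLp w 6 (volume.restrict Ω) := by
  obtain ⟨C, hC, hS⟩ := sobolev_test hN
  obtain ⟨φ, a3, a4, a5, a6⟩ := h.exists_ae
  obtain ⟨a1, a2, -⟩ := h
  refine ⟨a1.1, (Lp.eLpNorm_lim_le_liminf_eLpNorm (fun n => ((a3 n).memLp 2).1) w a6).trans_lt ?_⟩
  refine lt_of_le_of_lt (b := C * ((1 + eLpNorm w 2 (volume.restrict Ω)) +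
    (1 + eLpNorm g 2 (volume.restrict Ω)))) (liminf_le_of_frequently_le' (Eventually.frequently ?_))
    (ENNReal.mul_lt_top hC.lt_top (ENNReal.add_lt_top.2 ⟨ENNReal.add_lt_top.2 ⟨by simp, a1.2⟩,
      ENNReal.add_lt_top.2 ⟨by simp, a2.2⟩⟩))
  filter_upwards [a4.eventually (gt_mem_nhds zero_lt_one),
    a5.eventually (gt_mem_nhds zero_lt_one)] with n h1 h2
  have t := a3 n
  have s1 : Function.support (φ n) ⊆ Ω := (subset_tsupport _).trans t.2.2
  have s2 : Function.support (gradient (φ n)) ⊆ Ω := by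
    intro x hx
    refine t.2.2 (support_fderiv_subset ℝ (fun h0 => hx ?_))
    rw [← norm_eq_zero, norm_grad, h0, norm_zero]
  rw [eLpNorm_restrict_eq_of_support_subset s1]
  refine (hS _ ⟨t.1, t.2.1, subset_univ _⟩).trans (mul_le_mul_right (add_le_add ?_ ?_) _)
  · rw [← eLpNorm_restrict_eq_of_support_subset s1]
    have := tri (t.memLp 2).1 a1.1 aestronglyMeasurable_zero
    rw [sub_zero, sub_zero] at this
    exact this.trans (add_le_add h1.le le_rfl)
  · rw [← eLpNorm_restrict_eq_of_support_subset s2]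
    have := tri (t.memLp_grad 2).1 a2.1 aestronglyMeasurable_zero
    rw [sub_zero, sub_zero] at this
    exact this.trans (add_le_add h2.le le_rfl)

theorem H10.int_four (hN : N ≤ 3) (w : H10 Ω) :
    Integrable (fun x => w.val x ^ 4) (volume.restrict Ω) := by
  have h2 := (memLp_two_iff_integrable_sq w.memLp_val.1).1 w.memLp_val
  have h6 := (w.isH.memLp_six hN).integrable_norm_pow (p := 6) (by norm_num)
  refine (h2.add h6).mono' (w.memLp_val.1.pow 4) (Eventually.of_forall fun x => ?_)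
  simp only [Pi.add_apply, Real.norm_eq_abs]
  rw [abs_of_nonneg (by positivity), Even.pow_abs (by decide)]
  nlinarith [sq_nonneg (w.val x * (w.val x ^ 2 - 1)), sq_nonneg (w.val x ^ 2)]

theorem int_mul4 (hN : N ≤ 3) (a b c d : H10 Ω) :
    Integrable (fun x => a.val x * b.val x * c.val x * d.val x) (volume.restrict Ω) := by
  refine ((((a.int_four hN).add (b.int_four hN)).add (c.int_four hN)).add (d.int_four hN)).mono'
    (((a.memLp_val.1.mul b.memLp_val.1).mul c.memLp_val.1).mul d.memLp_val.1)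
    (Eventually.of_forall fun x => ?_)
  simp only [Pi.add_apply, Real.norm_eq_abs]
  generalize a.val x = p
  generalize b.val x = q
  generalize c.val x = r
  generalize d.val x = s
  rw [abs_le]
  constructor
  · nlinarith [sq_nonneg (p * q + r * s), sq_nonneg (p ^ 2 - q ^ 2), sq_nonneg (r ^ 2 - s ^ 2),
      sq_nonneg (p ^ 2), sq_nonneg (q ^ 2), sq_nonneg (r ^ 2), sq_nonneg (s ^ 2)]
  · nlinarith [sq_nonneg (p * q - r * s), sq_nonneg (p ^ 2 - q ^ 2), sq_nonneg (r ^ 2 - s ^ 2),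
      sq_nonneg (p ^ 2), sq_nonneg (q ^ 2), sq_nonneg (r ^ 2), sq_nonneg (s ^ 2)]

end Pool.Agent.Lib.MP_a38b16_an.S
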